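import Pool.Agent.R401.Tr7

/-!
# Differences with finitely many values: reduction to multiples of a power of the norm
-/

set_option autoImplicit false
set_option maxHeartbeats 1000000

namespace Pool.Agent.D0H78.FM

open NumberField Filter Topology IsDedekindDomain Pool.Agent.W401.Cheb Pool.Agent.R401.Eng
open Pool.Agent.R401.Sup2 Pool.Agent.R401.Sup3

variable {K : Type} [Field K] [NumberField K]

/-- The rational square roots of finitely many rational numbers. -/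
theorem roots_fin (S : Finset ℚ) :
    ∃ X : Finset ℚ, (0 : ℚ) ∈ X ∧ X.card ≤ 2 * S.card + 1 ∧ ∀ ξ : ℚ, ξ ^ 2 ∈ S → ξ ∈ X := by
  classical
  have h0 : ∀ s : ℚ, ∃ r : ℚ, ∀ ξ : ℚ, ξ ^ 2 = s → ξ = r ∨ ξ = -r := by
    intro s
    by_cases h : ∃ ξ₀ : ℚ, ξ₀ ^ 2 = s
    · obtain ⟨r, hr⟩ := h
      exact ⟨r, fun ξ hξ => sq_eq_sq_iff_eq_or_eq_neg.1 (hξ.trans hr.symm)⟩
    · exact ⟨0, fun ξ hξ => absurd ⟨ξ, hξ⟩ h⟩
  choose r hr using h0
  refine ⟨insert 0 (S.image r ∪ S.image fun s => -r s), Finset.mem_insert_self _ _, ?_, ?_⟩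
  · refine (Finset.card_insert_le _ _).trans (Nat.succ_le_succ ?_)
    refine (Finset.card_union_le _ _).trans ?_
    have h1 : (S.image r).card ≤ S.card := Finset.card_image_le
    have h2 : (S.image fun s => -r s).card ≤ S.card := Finset.card_image_le
    omega
  · intro ξ hξ
    rw [Finset.mem_insert, Finset.mem_union, Finset.mem_image, Finset.mem_image]
    rcases hr _ ξ rfl with h | h
    · exact Or.inr (Or.inl ⟨_, hξ, h.symm⟩)
    · exact Or.inr (Or.inr ⟨_, hξ, h.symm⟩)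

/-- **The reduction.** -/
theorem reduce {κ : Type} (a : HeightOneSpectrum (𝓞 K) → ℚ)
    (β : κ → HeightOneSpectrum (𝓞 K) → ℚ) (w : ℕ) (S : Finset ℚ) :
    ∃ (u : ℕ) (X : Finset ℚ) (Z : HeightOneSpectrum (𝓞 K) → Prop), (w = 2 * u ∨ X = {0}) ∧
      X.card ≤ 2 * S.card + 1 ∧ Tendsto (dens Z) atTop (𝓝 0) ∧ ∀ v,
        (∃ j, a v = β j v ∨ ∃ s ∈ S, (a v - β j v) ^ 2 = s * (Ideal.absNorm v.asIdeal : ℚ) ^ w) →
        (∃ j, ∃ ξ ∈ X, a v = β j v + ξ * (Ideal.absNorm v.asIdeal : ℚ) ^ u) ∨ Z v := by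
  classical
  have hN0 : ∀ v : HeightOneSpectrum (𝓞 K), (Ideal.absNorm v.asIdeal : ℚ) ≠ 0 := fun v =>
    Nat.cast_ne_zero.2 (fun h0 => v.ne_bot (Ideal.absNorm_eq_zero_iff.1 h0))
  rcases Nat.even_or_odd' w with ⟨u, hw | hw⟩
  · -- even weight
    obtain ⟨X, hX0, hXc, hX⟩ := roots_fin S
    refine ⟨u, X, fun _ => False, Or.inl hw, hXc, dens_fin _ (by simp), ?_⟩
    rintro v ⟨j, h | ⟨s, hs, h⟩⟩
    · exact Or.inl ⟨j, 0, hX0, by rw [h, zero_mul, add_zero]⟩
    · left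
      have hNQ : (Ideal.absNorm v.asIdeal : ℚ) ^ u ≠ 0 := pow_ne_zero _ (hN0 v)
      refine ⟨j, (a v - β j v) / (Ideal.absNorm v.asIdeal : ℚ) ^ u, hX _ ?_, ?_⟩
      · have h1 : ((a v - β j v) / (Ideal.absNorm v.asIdeal : ℚ) ^ u) ^ 2 = s := by
          rw [div_pow, h, hw, ← pow_mul, mul_comm u 2, mul_div_assoc,
            div_self (pow_ne_zero _ (hN0 v)), mul_one]
        rw [h1]
        exact hs
      · field_simp
        ring
  · -- odd weight
    have hodd : ¬ (2 : ℤ) ∣ ((w : ℕ) : ℤ) := by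
      rw [hw]
      omega
    refine ⟨0, {0}, fun v => ∃ s ∈ S.erase 0, ∃ x : ℚ,
      x ^ 2 = (Ideal.absNorm v.asIdeal : ℚ) ^ ((w : ℕ) : ℤ) * s, Or.inr rfl, ?_, ?_, ?_⟩
    · rw [Finset.card_singleton]
      omega
    · refine squeeze_zero (g := fun N => ∑ s ∈ S.erase 0,
        dens (fun v : HeightOneSpectrum (𝓞 K) => ∃ x : ℚ,
          x ^ 2 = (Ideal.absNorm v.asIdeal : ℚ) ^ ((w : ℕ) : ℤ) * s) N) ?_ ?_ ?_
      · intro N
        unfold dens
        positivity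
      · intro N
        exact dens_biUnion (S.erase 0) (fun s v => ∃ x : ℚ,
          x ^ 2 = (Ideal.absNorm v.asIdeal : ℚ) ^ ((w : ℕ) : ℤ) * s) N
      · have h1 := tendsto_finsetSum (S.erase 0) fun s hs =>
          dens_odd (K := K) ℚ (Finset.ne_of_mem_erase hs) hodd
        rw [Finset.sum_const_zero] at h1
        exact h1
    · rintro v ⟨j, h | ⟨s, hs, h⟩⟩
      · exact Or.inl ⟨j, 0, Finset.mem_singleton_self 0, by rw [h, zero_mul, add_zero]⟩
      · by_cases hs0 : s = 0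
        · left
          refine ⟨j, 0, Finset.mem_singleton_self 0, ?_⟩
          rw [hs0, zero_mul] at h
          have h2 : a v - β j v = 0 := pow_eq_zero_iff (two_ne_zero) |>.1 h
          rw [zero_mul, add_zero]
          exact sub_eq_zero.1 h2
        · right
          refine ⟨s, Finset.mem_erase.2 ⟨hs0, hs⟩, a v - β j v, ?_⟩
          rw [zpow_natCast, h, mul_comm]

end Pool.Agent.D0H78.FM
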