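import Pool.Agent.D0H32.EF.Glob

/-!
# Direct sums of finitely many representations
-/

set_option autoImplicit false
set_option linter.unusedSectionVars false
set_option maxHeartbeats 1000000

namespace Pool.Agent.D0H78.FM

open Module Matrix Polynomial Pool.Agent.D0H32.EF

section gen

variable {ι : Type} [Fintype ι] [DecidableEq ι] {m : ι → ℕ}

/-- the dimension of the direct sum -/
abbrev dN (m : ι → ℕ) : ℕ := Fintype.card (Σ i, Fin (m i))

/-- the numbering of the basis -/
noncomputable def ep (m : ι → ℕ) : (Σ i, Fin (m i)) ≃ Fin (dN m) := Fintype.equivFin _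

variable {R : Type} [Field R]

/-- the block matrix -/
noncomputable def bm (M : ∀ i, Matrix (Fin (m i)) (Fin (m i)) R) :
    Matrix (Fin (dN m)) (Fin (dN m)) R :=
  (blockDiagonal' M).submatrix (ep m).symm (ep m).symm

/-- the components of a vector -/
noncomputable def cpt (i : ι) (y : Fin (dN m) → R) : Fin (m i) → R := fun k => y (ep m ⟨i, k⟩)

theorem ext_cpt {y y' : Fin (dN m) → R} (h : ∀ i, cpt i y = cpt i y') : y = y' := by
  funext p
  have h1 := congrFun (h ((ep m).symm p).1) ((ep m).symm p).2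
  simpa [cpt] using h1

theorem cpt_bm (M : ∀ i, Matrix (Fin (m i)) (Fin (m i)) R) (i : ι) (y : Fin (dN m) → R) :
    cpt i (bm M *ᵥ y) = M i *ᵥ cpt i y := by
  funext k
  simp only [cpt, Matrix.mulVec, dotProduct, bm, Matrix.submatrix_apply, Equiv.symm_apply_apply]
  rw [← Equiv.sum_comp (ep m), Fintype.sum_sigma, Finset.sum_eq_single i]
  · refine Finset.sum_congr rfl fun x _ => ?_
    rw [Equiv.symm_apply_apply, blockDiagonal'_apply_eq]
  · intro i' _ hi
    refine Finset.sum_eq_zero fun x _ => ?_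
    rw [Equiv.symm_apply_apply, blockDiagonal'_apply_ne _ _ _ hi.symm, zero_mul]
  · intro h
    exact absurd (Finset.mem_univ i) h

theorem bm_transpose (M : ∀ i, Matrix (Fin (m i)) (Fin (m i)) R) :
    (bm M)ᵀ = bm fun i => (M i)ᵀ := by
  unfold bm
  rw [Matrix.transpose_submatrix, blockDiagonal'_transpose]

theorem cpt_vecMul (M : ∀ i, Matrix (Fin (m i)) (Fin (m i)) R) (i : ι) (y : Fin (dN m) → R) :
    cpt i (y ᵥ* bm M) = cpt i y ᵥ* M i := by
  rw [← Matrix.mulVec_transpose, bm_transpose, cpt_bm, Matrix.mulVec_transpose]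

theorem bm_map {S : Type} [Field S] (e : R →+* S) (M : ∀ i, Matrix (Fin (m i)) (Fin (m i)) R) :
    (bm M).map e = bm fun i => (M i).map e := by
  unfold bm
  rw [← Matrix.submatrix_map, blockDiagonal'_map _ _ (map_zero e)]

/-- the inclusion of a summand -/
noncomputable def inc (R : Type) [Field R] (m : ι → ℕ) (i : ι) :
    (Fin (m i) → R) →ₗ[R] (Fin (dN m) → R) where
  toFun x := fun p => (Pi.single i x : ∀ i, Fin (m i) → R) ((ep m).symm p).1 ((ep m).symm p).2
  map_add' x y := by
    funext p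
    rw [Pi.single_add]
    rfl
  map_smul' c x := by
    funext p
    rw [Pi.single_smul]
    rfl

theorem cpt_inc (i j : ι) (x : Fin (m i) → R) :
    cpt j (inc R m i x) = (Pi.single i x : ∀ i, Fin (m i) → R) j := by
  funext k
  change (Pi.single i x : ∀ i, Fin (m i) → R) ((ep m).symm (ep m ⟨j, k⟩)).1 _ = _
  rw [Equiv.symm_apply_apply]

theorem inc_inj (i : ι) : Function.Injective (inc R m i) := by
  intro x y hxy
  have h1 := congrArg (cpt i) hxy
  rw [cpt_inc, cpt_inc, Pi.single_eq_same, Pi.single_eq_same] at h1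
  exact h1

theorem bm_inc (M : ∀ i, Matrix (Fin (m i)) (Fin (m i)) R) (i : ι) (x : Fin (m i) → R) :
    bm M *ᵥ inc R m i x = inc R m i (M i *ᵥ x) := by
  apply ext_cpt
  intro j
  rw [cpt_bm, cpt_inc, cpt_inc]
  by_cases hj : j = i
  · subst hj
    rw [Pi.single_eq_same, Pi.single_eq_same]
  · rw [Pi.single_eq_of_ne hj, Pi.single_eq_of_ne hj, Matrix.mulVec_zero]

theorem sum_inc (y : Fin (dN m) → R) : y = ∑ i, inc R m i (cpt i y) := by
  funext p
  rw [Finset.sum_apply, Finset.sum_eq_single ((ep m).symm p).1]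
  · change y p = (Pi.single ((ep m).symm p).1 (cpt ((ep m).symm p).1 y) :
      ∀ i, Fin (m i) → R) ((ep m).symm p).1 ((ep m).symm p).2
    rw [Pi.single_eq_same]
    change y p = y (ep m ⟨((ep m).symm p).1, ((ep m).symm p).2⟩)
    rw [Sigma.eta, Equiv.apply_symm_apply]
  · intro i _ hi
    change (Pi.single i (cpt i y) : ∀ i, Fin (m i) → R) ((ep m).symm p).1 ((ep m).symm p).2 = 0
    rw [Pi.single_eq_of_ne hi.symm]
    rfl
  · intro h
    exact absurd (Finset.mem_univ _) h

variable {G : Type} [Group G]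

/-- the direct sum -/
noncomputable def dsum (W : ∀ i, G →* Matrix (Fin (m i)) (Fin (m i)) R) :
    G →* Matrix (Fin (dN m)) (Fin (dN m)) R where
  toFun g := bm fun i => W i g
  map_one' := by
    have h1 : (fun i => W i 1) = (1 : ∀ i, Matrix (Fin (m i)) (Fin (m i)) R) := by
      funext i
      rw [map_one]
      rfl
    rw [h1, bm, blockDiagonal'_one, Matrix.submatrix_one_equiv]
  map_mul' a b := by
    have h1 : (fun i => W i (a * b)) = fun i => W i a * W i b := by
      funext i
      rw [map_mul]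
    rw [h1, bm, bm, bm, blockDiagonal'_mul, Matrix.submatrix_mul_equiv]

theorem dsum_apply (W : ∀ i, G →* Matrix (Fin (m i)) (Fin (m i)) R) (g : G) :
    dsum W g = bm fun i => W i g := rfl

/-- the direct sum is semisimple -/
theorem soc_dsum {W : ∀ i, G →* Matrix (Fin (m i)) (Fin (m i)) R} {U : Subgroup G}
    (h : ∀ i, soc U (lin (W i)) = ⊤) : soc U (lin (dsum W)) = ⊤ := by
  have h1 : ∀ i : ι, soc U (lin (W i)) ≤ (soc U (lin (dsum W))).comap (inc R m i) := by
    intro i
    refine sSup_le fun S hS => ?_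
    rw [← Submodule.map_le_iff_le_comap]
    refine le_sSup ?_
    have hsing : ∀ (g : G) (x : Fin (m i) → R), lin (dsum W) g (inc R m i x) =
        inc R m i (lin (W i) g x) := by
      intro g x
      rw [lin_apply, lin_apply, dsum_apply, bm_inc]
    have hinj := inc_inj (R := R) (m := m) i
    refine ⟨?_, ?_, ?_⟩
    · intro h0
      apply hS.1
      rw [Submodule.eq_bot_iff]
      intro x hx
      have h2 : inc R m i x ∈ S.map (inc R m i) := ⟨x, hx, rfl⟩
      rw [h0, Submodule.mem_bot] at h2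
      exact hinj (h2.trans (map_zero _).symm)
    · rintro g hg _ ⟨x, hx, rfl⟩
      exact ⟨lin (W i) g x, hS.2.1 g hg x hx, (hsing g x).symm⟩
    · intro E' hE' hE's hE'0
      have h2 : E'.comap (inc R m i) = S := by
        refine hS.2.2 _ ?_ ?_ ?_
        · intro x hx
          obtain ⟨y, hy, hyx⟩ := hE' hx
          rwa [← hinj hyx]
        · intro g hg x hx
          rw [Submodule.mem_comap] at hx ⊢
          rw [← hsing]
          exact hE's g hg _ hx
        · intro h0
          apply hE'0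
          rw [Submodule.eq_bot_iff]
          intro y hy
          obtain ⟨x, hx, rfl⟩ := hE' hy
          have h3 : x ∈ E'.comap (inc R m i) := hy
          rw [h0, Submodule.mem_bot] at h3
          rw [h3, map_zero]
      rw [← h2, Submodule.map_comap_eq]
      refine (inf_eq_right.2 ?_).symm
      exact hE'.trans LinearMap.map_le_range
  rw [eq_top_iff]
  intro x _
  rw [sum_inc x]
  refine Submodule.sum_mem _ fun i _ => ?_
  exact h1 i (h i ▸ Submodule.mem_top)

theorem semiOn_dsum {W : ∀ i, G →* Matrix (Fin (m i)) (Fin (m i)) R}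
    (h : ∀ i, SemiOn ⊤ (lin (W i))) : SemiOn ⊤ (lin (dsum W)) :=
  semiOn_of_soc (soc_dsum fun i => clifford (h i) ⊤)

/-- the combination of the traces of the blocks -/
noncomputable def lamC (m : ι → ℕ) (c : ι → R) : Matrix (Fin (dN m)) (Fin (dN m)) R →ₗ[R] R where
  toFun A := ∑ i, c i * ∑ k : Fin (m i), A (ep m ⟨i, k⟩) (ep m ⟨i, k⟩)
  map_add' A B := by
    simp only [Matrix.add_apply, Finset.sum_add_distrib, mul_add]
  map_smul' r A := by
    simp only [Matrix.smul_apply, smul_eq_mul, ← Finset.mul_sum, RingHom.id_apply]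
    rw [Finset.mul_sum]
    refine Finset.sum_congr rfl fun i _ => ?_
    ring

theorem lamC_bm (c : ι → R) (M : ∀ i, Matrix (Fin (m i)) (Fin (m i)) R) :
    lamC m c (bm M) = ∑ i, c i * (M i).trace := by
  change ∑ i, c i * ∑ k : Fin (m i), bm M (ep m ⟨i, k⟩) (ep m ⟨i, k⟩) = _
  refine Finset.sum_congr rfl fun i _ => ?_
  congr 1
  refine Finset.sum_congr rfl fun k _ => ?_
  rw [bm, Matrix.submatrix_apply, Equiv.symm_apply_apply, blockDiagonal'_apply_eq]
  rfl

/-- polynomials in block matrices -/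
theorem bm_zero : bm (fun i => (0 : Matrix (Fin (m i)) (Fin (m i)) R)) = 0 := by
  have h1 : (fun i => (0 : Matrix (Fin (m i)) (Fin (m i)) R)) = 0 := rfl
  rw [h1, bm, blockDiagonal'_zero]
  rfl

theorem bm_add (M N : ∀ i, Matrix (Fin (m i)) (Fin (m i)) R) :
    bm (fun i => M i + N i) = bm M + bm N := by
  have h1 : (fun i => M i + N i) = M + N := rfl
  rw [h1, bm, blockDiagonal'_add]
  rfl

theorem bm_smul (c : R) (M : ∀ i, Matrix (Fin (m i)) (Fin (m i)) R) :
    bm (fun i => c • M i) = c • bm M := by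
  have h1 : (fun i => c • M i) = c • M := rfl
  rw [h1, bm, blockDiagonal'_smul]
  rfl

theorem bm_mul (M N : ∀ i, Matrix (Fin (m i)) (Fin (m i)) R) :
    bm (fun i => M i * N i) = bm M * bm N := by
  rw [bm, blockDiagonal'_mul, bm, bm, Matrix.submatrix_mul_equiv]

end gen

end Pool.Agent.D0H78.FM
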