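import Pool.Agent.D0H78.FM.Glob

/-!
# Adding a power of the cyclotomic character to the known families
-/

set_option autoImplicit false
set_option linter.unusedSectionVars false
set_option maxHeartbeats 1000000

namespace Pool.Agent.D0H78.FM

open NumberField Filter Topology Pool.Agent.W569.FM Pool.Agent.W401.Cheb Matrix Module Polynomial
open Pool.Agent.R401.Tr5 Pool.Agent.R401.Tr9 Pool.Agent.R401.Tr4 Pool.Agent.R401.Tr10
open Pool.Agent.R401.Sup Pool.Agent.R401.Sup2 Pool.Agent.R401.Eng IsDedekindDomain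
open Pool.Agent.D0H32.EF

variable {K : Type} [Field K] [NumberField K] {ι : Type} [Fintype ι] {n : ℕ} {m : ι → ℕ}

/-- the one-dimensional representation -/
noncomputable def oneRep {F : Type} [Field F] (c : GK K →* F) : GK K →* Matrix (Fin 1) (Fin 1) F :=
  ((Matrix.scalar (Fin 1)).toMonoidHom).comp c

theorem oneRep_apply {F : Type} [Field F] (c : GK K →* F) (g : GK K) :
    oneRep c g = c g • (1 : Matrix (Fin 1) (Fin 1) F) := by
  change Matrix.scalar (Fin 1) (c g) = _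
  rw [Matrix.scalar_apply, Matrix.smul_one_eq_diagonal]

theorem trace_oneRep {F : Type} [Field F] (c : GK K →* F) (g : GK K) :
    (oneRep c g).trace = c g := by
  rw [oneRep_apply, Matrix.trace_smul, Matrix.trace_one, Fintype.card_fin, Nat.cast_one,
    smul_eq_mul, mul_one]

theorem semi_oneRep {F : Type} [Field F] (c : GK K →* F) : SemiOn ⊤ (lin (oneRep c)) := by
  intro E _
  by_cases hE : E = ⊥
  · refine ⟨⊤, fun g _ x _ => trivial, ?_⟩
    rw [hE]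
    exact isCompl_bot_top
  · have h1 : E = ⊤ := by
      apply Submodule.eq_top_of_finrank_eq
      have h2 : finrank F E ≤ finrank F (Fin 1 → F) := Submodule.finrank_le E
      have h3 : 0 < finrank F E := Nat.pos_of_ne_zero fun h0 =>
        hE (Submodule.finrank_eq_zero.1 h0)
      rw [Module.finrank_fintype_fun_eq_card, Fintype.card_fin] at h2 ⊢
      omega
    refine ⟨⊥, ?_, ?_⟩
    · intro g _ x hx
      rw [Submodule.mem_bot] at hx ⊢
      rw [hx, map_zero]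
    · rw [h1]
      exact isCompl_top_bot

theorem WB_oneRep {ℓ : ℕ} [Fact ℓ.Prime] (u : ℕ) {P : Ideal (OO K)} (hP : P.IsMaximal) {q : ℕ}
    (hℓP : (ℓ : OO K) ∉ P) : WB (oneRep (ch (K := K) ℓ (u : ℤ))) P q ((2 * u : ℕ) : ℤ) := by
  intro a _ h hh H _ _ e α x hx
  have h1 : (oneRep (ch (K := K) ℓ (u : ℤ)) h).map e =
      ((q : ℂ) ^ a) ^ u • (1 : Matrix (Fin 1) (Fin 1) ℂ) := by
    rw [oneRep_apply, ch_frob (u : ℤ) hP hℓP hh]
    ext i j
    rw [Matrix.map_apply, Matrix.smul_apply, Matrix.smul_apply, Matrix.one_apply, Matrix.one_apply,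
      zpow_natCast]
    split_ifs
    · simp
    · simp
  have h2 : α • x = ((q : ℂ) ^ a) ^ u • x → ‖α‖ ^ 2 = ((q : ℝ) ^ a) ^ (((2 * u : ℕ) : ℤ)) := by
    intro h3
    have h4 : α = ((q : ℂ) ^ a) ^ u := smul_left_injective ℂ hx h3
    rw [h4, norm_pow, norm_pow, Complex.norm_natCast, zpow_natCast]
    ring
  constructor
  · intro _ h3
    rw [h1, Matrix.smul_mulVec, Matrix.one_mulVec] at h3
    exact (h2 h3.symm).le
  · intro _ h3
    rw [h1, Matrix.vecMul_smul, Matrix.vecMul_one] at h3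
    exact (h2 h3.symm).ge

theorem int_oneRep (u : ℕ) {P : Ideal (OO K)} (hP : P.IsMaximal) {q : ℕ} :
    IntChar (fun ℓ _ => oneRep (ch (K := K) ℓ (u : ℤ))) P q := by
  intro a _ h hh
  refine ⟨X - C (((q : ℤ) ^ a) ^ u), ?_⟩
  intro ℓ _ hℓP
  rw [oneRep_apply, ch_frob (u : ℤ) hP hℓP hh]
  have h1 : ((((q : ℚ_[ℓ]) ^ a) ^ (u : ℤ)) • (1 : Matrix (Fin 1) (Fin 1) ℚ_[ℓ])).charpoly =
      X - C (((q : ℚ_[ℓ]) ^ a) ^ (u : ℤ)) := by
    rw [Matrix.charpoly, Matrix.det_fin_one, Matrix.charmatrix_apply_eq]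
    simp
  rw [h1, Polynomial.map_sub, Polynomial.map_X, Polynomial.map_C, zpow_natCast]
  congr 2
  simp

/-- the extended dimensions -/
def mx (m : ι → ℕ) : Option ι → ℕ
  | none => 1
  | some i => m i

/-- the extended family -/
noncomputable def Wx
    (W : ∀ (i : ι) (ℓ : ℕ) [Fact ℓ.Prime], GK K →* Matrix (Fin (m i)) (Fin (m i)) ℚ_[ℓ]) (u : ℕ) :
    ∀ (o : Option ι) (ℓ : ℕ) [Fact ℓ.Prime],
      GK K →* Matrix (Fin (mx m o)) (Fin (mx m o)) ℚ_[ℓ]
  | none, ℓ, _ => oneRep (ch (K := K) ℓ (u : ℤ))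
  | some i, ℓ, _ => W i ℓ

/-- the extended coefficients -/
def Dx (D : GK K → ι → ℚ) (ξ : GK K → ℚ) (g : GK K) : Option ι → ℚ
  | none => ξ g
  | some i => D g i

section ext

variable
  (V : ∀ (ℓ : ℕ) [Fact ℓ.Prime], GK K →* Matrix (Fin n) (Fin n) ℚ_[ℓ])
  (W : ∀ (i : ι) (ℓ : ℕ) [Fact ℓ.Prime], GK K →* Matrix (Fin (m i)) (Fin (m i)) ℚ_[ℓ])
  (D : GK K → ι → ℚ) (ξ : GK K → ℚ) (u : ℕ)
  (U : Subgroup (GK K)) (hUn : U.Normal) (hUo : IsOpen (U : Set (GK K)))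
  (hD : ∀ g, ∀ x ∈ U, D (g * x) = D g) (hξ : ∀ g, ∀ x ∈ U, ξ (g * x) = ξ g)
  (hT : ∀ (ℓ : ℕ) [Fact ℓ.Prime] (g : GK K), (V ℓ g).trace =
    ∑ i, (D g i : ℚ_[ℓ]) * (W i ℓ g).trace + (ξ g : ℚ_[ℓ]) * ch ℓ (u : ℤ) g)
  {P : Ideal (OO K)} (hP : P.IsMaximal) {q : ℕ}

include hD hξ in
theorem Dx_inv : ∀ g, ∀ x ∈ U, Dx D ξ (g * x) = Dx D ξ g := by
  intro g x hx
  funext o
  cases o with
  | none => exact hξ g x hx
  | some i => exact congrFun (hD g x hx) i

include hT in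
theorem trace_x (ℓ : ℕ) [Fact ℓ.Prime] (g : GK K) :
    (V ℓ g).trace = ∑ o, (Dx D ξ g o : ℚ_[ℓ]) * (Wx W u o ℓ g).trace := by
  rw [hT, Fintype.sum_option, add_comm]
  congr 1
  change _ = ((ξ g : ℚ) : ℚ_[ℓ]) * (oneRep (ch (K := K) ℓ (u : ℤ)) g).trace
  rw [trace_oneRep]

include hUn hUo hD hξ hT hP in
theorem WB_ext (hq : 2 ≤ q) {w : ℕ} (hw : w = 2 * u ∨ ∀ g, ξ g = 0) (ℓ : ℕ) [Fact ℓ.Prime]
    (hℓP : (ℓ : OO K) ∉ P) (hss : ∀ i, SemiOn ⊤ (lin (W i ℓ)))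
    (hWB : ∀ i, D 1 i ≠ 0 → WB (W i ℓ) P q (w : ℤ)) : WB (V ℓ) P q (w : ℤ) := by
  refine transfer_WB_virt V (Wx W u) (Dx D ξ) U hUn hUo (Dx_inv D ξ U hD hξ)
    (trace_x V W D ξ u hT) hP hq ℓ ?_ ?_
  · intro o _
    cases o with
    | none => exact semi_oneRep _
    | some i => exact hss i
  · intro o ho
    cases o with
    | none =>
      rcases hw with hw | hw
      · rw [hw]
        exact WB_oneRep u hP hℓP
      · exact absurd (hw 1) ho
    | some i => exact hWB i ho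

include hUn hUo hD hξ hT hP in
theorem int_ext (hWi : ∀ i, IntChar (fun ℓ _ => W i ℓ) P q) : IntChar V P q := by
  refine transfer_int_virt V (Wx W u) (Dx D ξ) U hUn hUo (Dx_inv D ξ U hD hξ)
    (trace_x V W D ξ u hT) hP ?_
  intro o
  cases o with
  | none => exact int_oneRep u hP
  | some i => exact hWi i

end ext

end Pool.Agent.D0H78.FM
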