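import Pool.Agent.D0H32.EF.Glob

/-!
# A product of trace functions which is zero: one factor is zero on an open subgroup
-/

set_option autoImplicit false
set_option maxHeartbeats 1000000

namespace Pool.Agent.D0H78.FM

open NumberField Filter Topology IsDedekindDomain Pool.Agent.W401.Cheb Module Matrix

section top

variable {G : Type} [Group G] [TopologicalSpace G] [IsTopologicalGroup G] [CompactSpace G]
  [TotallyDisconnectedSpace G]

/-- open normal subgroups are a base of the neighbourhoods -/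
theorem exists_coset {O : Set G} (hO : IsOpen O) {g : G} (hg : g ∈ O) :
    ∃ U : Subgroup G, U.Normal ∧ IsOpen (U : Set G) ∧ ∀ u ∈ U, g * u ∈ O := by
  have h1 : (fun u => g * u) ⁻¹' O ∈ 𝓝 (1 : G) := by
    apply (hO.preimage (continuous_const.mul continuous_id)).mem_nhds
    simpa using hg
  obtain ⟨s, hs1, hs2, hs3⟩ := mem_nhds_iff.1 h1
  obtain ⟨U, hU⟩ := ProfiniteGrp.exist_openNormalSubgroup_sub_open_nhds_of_one hs2 hs3
  exact ⟨(U : Subgroup G), U.isNormal', U.isOpen', fun u hu => hs1 (hU hu)⟩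

/-- a coset in a finite union of closed sets: a smaller coset is in one of them -/
theorem exists_small {κ : Type} [DecidableEq κ] (C : κ → Set G) (hC : ∀ j, IsClosed (C j))
    (U₀ : Subgroup G) (x : G) (s : Finset κ) : ∀ (g : G) (U : Subgroup G), x⁻¹ * g ∈ U₀ →
      U.Normal → IsOpen (U : Set G) → U ≤ U₀ → (∀ u ∈ U, ∃ j ∈ s, g * u ∈ C j) →
      ∃ (j : κ) (g' : G), x⁻¹ * g' ∈ U₀ ∧ ∃ U' : Subgroup G, U'.Normal ∧ IsOpen (U' : Set G) ∧
        U' ≤ U₀ ∧ ∀ u ∈ U', g' * u ∈ C j := by
  induction s using Finset.induction_on with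
  | empty =>
    intro g U _ _ _ _ h
    obtain ⟨j, hj, -⟩ := h 1 U.one_mem
    exact absurd hj (Finset.notMem_empty j)
  | insert j s _ ih =>
    intro g U hg hUn hUo hle h
    by_cases hall : ∀ u ∈ U, g * u ∈ C j
    · exact ⟨j, g, hg, U, hUn, hUo, hle, hall⟩
    · push Not at hall
      obtain ⟨u, hu, huC⟩ := hall
      obtain ⟨U₁, hU₁n, hU₁o, hU₁⟩ := exists_coset (hC j).isOpen_compl (g := g * u) huC
      have hn : (U ⊓ U₁).Normal := inferInstance
      refine ih (g * u) (U ⊓ U₁) ?_ hn ?_ (inf_le_left.trans hle) ?_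
      · rw [← mul_assoc]
        exact U₀.mul_mem hg (hle hu)
      · rw [Subgroup.coe_inf]
        exact hUo.inter hU₁o
      · intro x hx
        obtain ⟨i, hi, hiC⟩ := h (u * x) (U.mul_mem hu hx.1)
        rw [← mul_assoc] at hiC
        rcases Finset.mem_insert.1 hi with rfl | hi
        · exact absurd hiC (hU₁ x hx.2)
        · exact ⟨i, hi, hiC⟩

/-- **On every coset of an open normal subgroup one of the factors is zero.** -/
theorem exists_factor {κ : Type} [Finite κ] {F : Type} [Field F] [TopologicalSpace F] [T1Space F]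
    {M : Type} [AddCommGroup M] [Module F M] [Module.Finite F M] (T : κ → G → F)
    (hT : ∀ j, Continuous (T j)) (R : G → M) (L : κ → G → M →ₗ[F] F)
    (hTR : ∀ j g x, T j (g * x) = L j g (R x)) (h : ∀ g, ∃ j, T j g = 0) :
    ∃ (U : Subgroup G) (j : G → κ), U.Normal ∧ IsOpen (U : Set G) ∧
      (∀ g, ∀ u ∈ U, j (g * u) = j g) ∧ ∀ g, T (j g) g = 0 := by
  classical
  have : Fintype κ := Fintype.ofFinite κ
  -- the smallest span
  let S : Subgroup G → Submodule F M := fun U => Submodule.span F (R '' (U : Set G))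
  have hex : ∃ d : ℕ, ∃ U : Subgroup G, U.Normal ∧ IsOpen (U : Set G) ∧ finrank F (S U) = d :=
    ⟨_, ⊤, inferInstance, isOpen_univ, rfl⟩
  obtain ⟨U₀, hU₀n, hU₀o, hU₀d⟩ := Nat.find_spec hex
  have hmin : ∀ U : Subgroup G, U.Normal → IsOpen (U : Set G) → U ≤ U₀ → S U = S U₀ := by
    intro U hUn hUo hle
    have h1 : S U ≤ S U₀ := Submodule.span_mono (Set.image_mono hle)
    refine Submodule.eq_of_le_of_finrank_le h1 ?_
    rw [hU₀d]
    exact Nat.find_min' hex ⟨U, hUn, hUo, rfl⟩
  have key : ∀ x : G, ∃ j, ∀ y, x⁻¹ * y ∈ U₀ → T j y = 0 := by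
    intro x
    obtain ⟨j, g, hg, U, hUn, hUo, hle, hUz⟩ := exists_small (fun j => {g | T j g = 0})
      (fun j => isClosed_singleton.preimage (hT j)) U₀ x Finset.univ x U₀
      (by rw [inv_mul_cancel]; exact U₀.one_mem) hU₀n hU₀o le_rfl
      (fun u _ => by
        obtain ⟨j, hj⟩ := h (x * u)
        exact ⟨j, Finset.mem_univ j, hj⟩)
    refine ⟨j, ?_⟩
    intro y hy
    have h1 : ∀ z ∈ S U, L j g z = 0 := by
      intro z hz
      have h2 : S U ≤ LinearMap.ker (L j g) := by
        apply Submodule.span_le.2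
        rintro y ⟨v, hv, rfl⟩
        have h3 : T j (g * v) = 0 := hUz v hv
        rw [hTR] at h3
        exact h3
      exact h2 hz
    have h2 : R (g⁻¹ * y) ∈ S U := by
      rw [hmin U hUn hUo hle]
      have h4 : g⁻¹ * y = (x⁻¹ * g)⁻¹ * (x⁻¹ * y) := by group
      exact Submodule.subset_span ⟨_, by rw [h4]; exact U₀.mul_mem (U₀.inv_mem hg) hy, rfl⟩
    have h3 := h1 _ h2
    rw [← hTR, mul_inv_cancel_left] at h3
    exact h3
  choose J hJ using key
  refine ⟨U₀, fun g => J ((g : G ⧸ U₀).out), hU₀n, hU₀o, ?_, ?_⟩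
  · intro g u hu
    have h1 : ((g * u : G) : G ⧸ U₀) = (g : G ⧸ U₀) := (QuotientGroup.mk_mul_of_mem g hu)
    simp only [h1]
  · intro g
    apply hJ
    rw [← QuotientGroup.eq]
    exact Quotient.out_eq _

end top

section fam

variable {K : Type} [Field K] [NumberField K] {κ ι : Type} [Finite κ] [Fintype ι] {F : Type}
  [NormedField F] {n : ℕ} {m : ι → ℕ}

/-- **On every coset one of the relations holds.** -/
theorem exists_open (V : GK K →* Matrix (Fin n) (Fin n) F) (hV : Continuous V)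
    (W : ∀ i, GK K →* Matrix (Fin (m i)) (Fin (m i)) F) (hW : ∀ i, Continuous (W i))
    (c : κ → ι → F) (h : ∀ g, ∃ j, (V g).trace = ∑ i, c j i * (W i g).trace) :
    ∃ (U : Subgroup (GK K)) (j : GK K → κ), U.Normal ∧ IsOpen (U : Set (GK K)) ∧
      (∀ g, ∀ u ∈ U, j (g * u) = j g) ∧
      ∀ g, (V g).trace = ∑ i, c (j g) i * (W i g).trace := by
  classical
  have : Fintype κ := Fintype.ofFinite κ
  have hc : ∀ {k : ℕ} (ρ : GK K →* Matrix (Fin k) (Fin k) F), Continuous ρ →
      Continuous fun g : GK K => (ρ g).trace := by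
    intro k ρ hρ
    exact (Continuous.matrix_trace continuous_id).comp hρ
  obtain ⟨U, j, hUn, hUo, hj, hU⟩ := exists_factor (F := F) (G := GK K)
    (M := Matrix (Fin n) (Fin n) F × (∀ i, Matrix (Fin (m i)) (Fin (m i)) F))
    (fun j g => (V g).trace - ∑ i, c j i * (W i g).trace)
    (fun j => (hc V hV).sub (continuous_finsetSum _ fun i _ =>
      continuous_const.mul (hc (W i) (hW i))))
    (fun x => (V x, fun i => W i x))
    (fun j g =>
      ((Matrix.traceLinearMap (Fin n) F F).comp (LinearMap.mulLeft F (V g))).comp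
        (LinearMap.fst F _ _) -
      ∑ i, c j i • ((Matrix.traceLinearMap (Fin (m i)) F F).comp (LinearMap.mulLeft F (W i g))).comp
        ((LinearMap.proj i).comp (LinearMap.snd F _ _)))
    (by
      intro j g x
      rw [LinearMap.sub_apply, LinearMap.sum_apply, map_mul]
      congr 1
      refine Finset.sum_congr rfl fun i _ => ?_
      rw [map_mul]
      rfl)
    (by
      intro g
      obtain ⟨j, hj⟩ := h g
      exact ⟨j, by rw [hj, sub_self]⟩)
  exact ⟨U, j, hUn, hUo, hj, fun g => sub_eq_zero.1 (hU g)⟩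

end fam

end Pool.Agent.D0H78.FM
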