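import Pool.Agent.D0H78.FM.Trans2
import Pool.Agent.D0H78.FM.DSum

/-!
# Transfer of the weight bounds when the trace is a combination of matrix coefficients on an open
subgroup
-/

set_option autoImplicit false
set_option linter.unusedSectionVars false
set_option maxHeartbeats 1000000

namespace Pool.Agent.D0H78.FM

open NumberField Filter Topology Pool.Agent.W569.FM Pool.Agent.W401.Cheb Matrix Module Polynomial
open Pool.Agent.R401.Tr5 Pool.Agent.R401.Tr9 Pool.Agent.R401.Tr4 Pool.Agent.R401.Tr10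
open Pool.Agent.R401.Sup Pool.Agent.R401.Sup3 IsDedekindDomain Pool.Agent.R401.Img
open Pool.Agent.D0H32.EF

variable {K : Type} [Field K] [NumberField K] {n m : ℕ}

section one

variable {ℓ : ℕ} [Fact ℓ.Prime] (V : GK K →* Matrix (Fin n) (Fin n) ℚ_[ℓ])
  (W : GK K →* Matrix (Fin m) (Fin m) ℚ_[ℓ]) (U : Subgroup (GK K)) (hUn : U.Normal)
  (hUo : IsOpen (U : Set (GK K))) (lam : Matrix (Fin m) (Fin m) ℚ_[ℓ] →ₗ[ℚ_[ℓ]] ℚ_[ℓ])
  (hU : ∀ x ∈ U, (V x).trace = lam (W x))
  {P : Ideal (OO K)} (hP : P.IsMaximal) {q : ℕ} (hq : 2 ≤ q) {w : ℤ}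

include hUn hUo hU hP hq in
/-- **Transfer of the weight bounds.** -/
theorem transfer_WB_lam (hss : SemiOn ⊤ (lin W)) (hWB : WB W P q w) : WB V P q w := by
  classical
  intro a ha h hh H' hH'n hH'o e α x hx
  have hfin : Finite (GK K ⧸ U) := Subgroup.quotient_finite_of_isOpen _ hUo
  have hfi : U.FiniteIndex := Subgroup.finiteIndex_of_finite_quotient
  have hM : 0 < U.index := Nat.pos_of_ne_zero hfi.index_ne_zero
  set M := U.index with hMdef
  set H : Subgroup (GK K) := H' ⊓ U with hH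
  have hHn : H.Normal := inferInstance
  have hHo : IsOpen (H : Set (GK K)) := by
    rw [hH, Subgroup.coe_inf]
    exact hH'o.inter hUo
  set J : Set (GK K) := {τ | τ ∈ H ∧ InInertia P τ} with hJ
  have hJU : ∀ τ ∈ J, τ ∈ U := fun τ hτ => hτ.1.2
  have hqa : 1 ≤ q ^ a := Nat.one_le_pow _ _ (by omega)
  have hpow : ∀ {z z' : ℂ}, z' ^ M = z ^ M → (‖z'‖ ^ 2 = ‖z‖ ^ 2) := by
    intro z z' h1
    have h2 : ‖z'‖ ^ M = ‖z‖ ^ M := by rw [← norm_pow, ← norm_pow, h1]
    have h3 := (pow_left_inj₀ (norm_nonneg _) (norm_nonneg _) hM.ne').1 h2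
    rw [h3]
  constructor
  · intro hxJ hxα
    obtain ⟨α', y, hα', hy, hyJ, hyα⟩ := transfer_lam e V W U (clifford hss U) lam
      hU hM (Subgroup.pow_index_mem U h) J hJU (by
        intro τ hτ
        refine ⟨?_, ?_⟩
        · have h1 := hHn.conj_mem τ hτ.1 h⁻¹
          rwa [inv_inv] at h1
        · have h1 := conj_inertia hP hqa hτ.2 hh
          rwa [inv_inv] at h1) hx (fun τ hτ => hxJ τ hτ.1.1 hτ.2) hxα
    rw [← hpow hα']
    exact (hWB a ha h hh H hHn hHo e α' y hy).1 (fun τ hτ hτi => hyJ τ ⟨hτ, hτi⟩) hyα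
  · intro hxJ hxα
    let lam' : Matrix (Fin m) (Fin m) ℚ_[ℓ] →ₗ[ℚ_[ℓ]] ℚ_[ℓ] :=
      lam.comp (Matrix.transposeLinearEquiv (Fin m) (Fin m) ℚ_[ℓ] ℚ_[ℓ]).toLinearMap
    have htrd : ∀ y ∈ U, (dl V y).trace = lam' (dl W y) := by
      intro y hy
      have h1 : lam' (dl W y) = lam (W y⁻¹) := by
        change lam ((dl W y)ᵀ) = _
        rw [dl_apply, Matrix.transpose_transpose]
      rw [h1, dl_apply, Matrix.trace_transpose, hU _ (U.inv_mem hy)]
    have hxd : ∀ (g : GK K), (dl V g⁻¹).map e *ᵥ x = x ᵥ* (V g).map e := by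
      intro g
      rw [dl_apply, inv_inv, ← Matrix.mulVec_transpose, Matrix.transpose_map]
    have hJinv : ∀ τ ∈ J, τ⁻¹ ∈ J := fun τ hτ => ⟨H.inv_mem hτ.1, (IG P).inv_mem hτ.2⟩
    obtain ⟨α', y, hα', hy, hyJ, hyα⟩ := transfer_lam e (dl V) (dl W) U
      (clifford (semiOn_dl hss) U) lam' htrd (h := h⁻¹) hM (Subgroup.pow_index_mem U h⁻¹) J hJU (by
        intro τ hτ
        rw [inv_inv]
        refine ⟨hHn.conj_mem τ hτ.1 h, ?_⟩
        have h1 := conj_inertia' hP hτ.2 hh
        rwa [inv_inv] at h1) hx (fun τ hτ => by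
          have h1 := hxd τ⁻¹
          rw [inv_inv] at h1
          rw [h1]
          exact hxJ _ (hJinv τ hτ).1.1 (hJinv τ hτ).2) (by rw [hxd]; exact hxα)
    have hyd : ∀ (g : GK K), (dl W g⁻¹).map e *ᵥ y = y ᵥ* (W g).map e := by
      intro g
      rw [dl_apply, inv_inv, ← Matrix.mulVec_transpose, Matrix.transpose_map]
    rw [← hpow hα']
    refine (hWB a ha h hh H hHn hHo e α' y hy).2 (fun τ hτ hτi => ?_) ?_
    · have h1 := hyJ τ⁻¹ (hJinv τ ⟨hτ, hτi⟩)
      rwa [hyd] at h1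
    · rw [hyd] at hyα
      exact hyα

include hU in
/-- an integral equation -/
theorem exists_monic {s : GK K} (hs : s ∈ U) {g : ℤ[X]} (hg : g.Monic)
    (hg0 : aeval (W s) g = 0) : ∃ g' : ℤ[X], g'.Monic ∧ aeval (V s) g' = 0 := by
  have htra : ∀ p : ℤ[X], (aeval (V s) p).trace = lam (aeval (W s) p) := by
    intro p
    induction p using Polynomial.induction_on' with
    | add p q hp hq => rw [map_add, map_add, Matrix.trace_add, map_add, hp, hq]
    | monomial k a =>
      rw [aeval_monomial, aeval_monomial, ← Algebra.smul_def, ← Algebra.smul_def,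
        Matrix.trace_smul, map_zsmul, ← map_pow, ← map_pow, hU _ (U.pow_mem hs k)]
  have hnil : IsNilpotent (aeval (V s) g) := by
    have h2 := Pool.Agent.R401.Burn.isNilpotent_of_trace_pow (k := ℚ_[ℓ]) (V := Fin n → ℚ_[ℓ])
      (fun m h1 _ => Nat.cast_ne_zero.2 h1.ne') (Matrix.toLin' (aeval (V s) g)) (by
        intro r
        rw [← Matrix.toLin'_pow, Matrix.trace_toLin'_eq, ← map_pow, htra, map_pow, hg0,
          zero_pow (Nat.succ_ne_zero r), map_zero])
    obtain ⟨k, hk⟩ := h2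
    refine ⟨k, ?_⟩
    rw [← Matrix.toLin'_pow] at hk
    exact (LinearEquiv.map_eq_zero_iff Matrix.toLin').1 hk
  obtain ⟨k, hk⟩ := hnil
  exact ⟨g ^ k, hg.pow k, by rw [map_pow, hk]⟩

end one

section sum

variable {ι : Type} [Fintype ι] [DecidableEq ι] {d : ι → ℕ} {ℓ : ℕ} [Fact ℓ.Prime]
  {P : Ideal (OO K)} {q : ℕ} {w : ℤ}

/-- the weight bounds of a direct sum -/
theorem WB_dsum (W : ∀ i, GK K →* Matrix (Fin (d i)) (Fin (d i)) ℚ_[ℓ])
    (h : ∀ i, WB (W i) P q w) : WB (dsum W) P q w := by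
  intro a ha g hg H hHn hHo e α x hx
  obtain ⟨i, hi⟩ : ∃ i, cpt i x ≠ 0 := by
    by_contra hcon
    push Not at hcon
    apply hx
    apply ext_cpt
    intro i
    rw [hcon i]
    rfl
  obtain ⟨h1, h2⟩ := h i a ha g hg H hHn hHo e α (cpt i x) hi
  have hsm : cpt i (α • x) = α • cpt i x := rfl
  constructor
  · intro hxJ hxα
    apply h1
    · intro τ hτ hτi
      have h3 := congrArg (cpt i) (hxJ τ hτ hτi)
      rwa [dsum_apply, bm_map, cpt_bm] at h3
    · have h3 := congrArg (cpt i) hxα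
      rwa [dsum_apply, bm_map, cpt_bm, hsm] at h3
  · intro hxJ hxα
    apply h2
    · intro τ hτ hτi
      have h3 := congrArg (cpt i) (hxJ τ hτ hτi)
      rwa [dsum_apply, bm_map, cpt_vecMul] at h3
    · have h3 := congrArg (cpt i) hxα
      rwa [dsum_apply, bm_map, cpt_vecMul, hsm] at h3

theorem bm_pow {R : Type} [Field R] (M : ∀ i, Matrix (Fin (d i)) (Fin (d i)) R) (k : ℕ) :
    bm (fun i => M i ^ k) = bm M ^ k := by
  induction k with
  | zero =>
    have h1 : (fun i => M i ^ 0) = (1 : ∀ i, Matrix (Fin (d i)) (Fin (d i)) R) := by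
      funext i
      rw [pow_zero]
      rfl
    rw [h1, pow_zero, bm, blockDiagonal'_one, Matrix.submatrix_one_equiv]
  | succ k ih =>
    have h1 : (fun i => M i ^ (k + 1)) = fun i => M i ^ k * M i := by
      funext i
      rw [pow_succ]
    rw [h1, bm_mul, ih, pow_succ]

theorem bm_zsmul {R : Type} [Field R] (a : ℤ) (M : ∀ i, Matrix (Fin (d i)) (Fin (d i)) R) :
    bm (fun i => a • M i) = a • bm M := by
  have h1 : (fun i => a • M i) = a • M := rfl
  rw [h1, bm, blockDiagonal'_smul]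
  rfl

theorem aeval_bm {R : Type} [Field R] (M : ∀ i, Matrix (Fin (d i)) (Fin (d i)) R) (g : ℤ[X]) :
    aeval (bm M) g = bm fun i => aeval (M i) g := by
  induction g using Polynomial.induction_on' with
  | add p q hp hq =>
    have h1 : (fun i => aeval (M i) (p + q)) = fun i => aeval (M i) p + aeval (M i) q := by
      funext i
      rw [map_add]
    rw [map_add, hp, hq, h1, bm_add]
  | monomial k a =>
    have h1 : (fun i => aeval (M i) (monomial k a)) = fun i => a • (M i) ^ k := by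
      funext i
      rw [aeval_monomial, ← Algebra.smul_def]
    rw [h1, aeval_monomial, ← Algebra.smul_def, bm_zsmul, bm_pow]

/-- a direct sum of matrices with integral characteristic polynomials -/
theorem aeval_prod {R : Type} [Field R] (M : ∀ i, Matrix (Fin (d i)) (Fin (d i)) R)
    (f : ι → ℤ[X]) (hf : ∀ i, (M i).charpoly = (f i).map (Int.castRingHom R)) :
    aeval (bm M) (∏ i, f i) = 0 := by
  rw [aeval_bm, ← bm_zero (R := R) (m := d)]
  congr 1
  funext i
  have h1 : aeval (M i) (f i) = 0 := by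
    have h2 := Matrix.aeval_self_charpoly (M i)
    rw [hf, aeval_def, Polynomial.eval₂_map] at h2
    rw [aeval_def, ← h2]
    congr 1
  rw [← Finset.mul_prod_erase _ _ (Finset.mem_univ i), map_mul, h1, zero_mul]

end sum

end Pool.Agent.D0H78.FM
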