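import Pool.Agent.D0H78.FM.Zero
import Pool.Agent.D0H78.FM.Span
import Pool.Agent.D0H78.FM.Conn
import Pool.Agent.D0H78.FM.Wb

/-!
# Families whose traces are at most places among finitely many combinations of known ones
-/

set_option autoImplicit false
set_option linter.unusedSectionVars false
set_option maxHeartbeats 1000000

namespace Pool.Agent.D0H78.FM

open NumberField Filter Topology Pool.Agent.W569.FM Pool.Agent.W401.Cheb Matrix Module Polynomial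
open Pool.Agent.R401.Tr5 Pool.Agent.R401.Tr9 Pool.Agent.R401.Tr4 Pool.Agent.R401.Tr10
open Pool.Agent.R401.Sup Pool.Agent.R401.Sup2 Pool.Agent.R401.Eng IsDedekindDomain
open Pool.Agent.D0H32.EF

variable {K : Type} [Field K] [NumberField K] {κ ι : Type} [Finite κ] [Fintype ι] {n : ℕ}
  {m : ι → ℕ}

section glob

variable
  (V : ∀ (ℓ : ℕ) [Fact ℓ.Prime], GK K →* Matrix (Fin n) (Fin n) ℚ_[ℓ])
  (hV : ∀ (ℓ : ℕ) [Fact ℓ.Prime], Continuous (V ℓ))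
  (W : ∀ (i : ι) (ℓ : ℕ) [Fact ℓ.Prime], GK K →* Matrix (Fin (m i)) (Fin (m i)) ℚ_[ℓ])
  (hW : ∀ (i : ι) (ℓ : ℕ) [Fact ℓ.Prime], Continuous (W i ℓ))
  (B : Set (HeightOneSpectrum (𝓞 K))) (hB : B.Finite) (a : HeightOneSpectrum (𝓞 K) → ℚ)
  (b : ι → HeightOneSpectrum (𝓞 K) → ℚ) (c : κ → ι → ℚ)
  (htr : ∀ (ℓ : ℕ) [Fact ℓ.Prime], ∀ v, v ∉ B → (ℓ : 𝓞 K) ∉ v.asIdeal → ∀ g, IsFrob v g →
    (V ℓ g⁻¹).trace = (a v : ℚ_[ℓ]))
  (htrW : ∀ (i : ι) (ℓ : ℕ) [Fact ℓ.Prime], ∀ v, v ∉ B → (ℓ : 𝓞 K) ∉ v.asIdeal → ∀ g,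
    IsFrob v g → (W i ℓ g⁻¹).trace = (b i v : ℚ_[ℓ]))

include hV hW hB htr htrW in
/-- one prime `ℓ` -/
theorem one_prime [Fintype κ] {θ : ℝ}
    (hθ : θ * ((n : ℝ) ^ 2 + ∑ i, (m i : ℝ) ^ 2) ^ Fintype.card κ < 1)
    (hfreq : ∃ᶠ N : ℕ in atTop,
      dens (fun v : HeightOneSpectrum (𝓞 K) => ∀ j, a v ≠ ∑ i, c j i * b i v) N ≤ θ)
    (ℓ : ℕ) [Fact ℓ.Prime] (g : GK K) :
    ∃ j, (V ℓ g).trace = ∑ i, (c j i : ℚ_[ℓ]) * (W i ℓ g).trace := by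
  classical
  set M : ℝ := ((n : ℝ) ^ 2 + ∑ i, (m i : ℝ) ^ 2) ^ Fintype.card κ with hM
  have hM0 : 0 ≤ M := by positivity
  set ε : ℝ := (1 - θ * M) / (2 * (M + 1)) with hε
  have hε0 : 0 < ε := div_pos (by linarith) (by positivity)
  have hθε : (θ + ε) * M < 1 := by
    have h1 : ε * (M + 1) = (1 - θ * M) / 2 := by
      rw [hε]
      field_simp
    have h2 : (θ + ε) * M = θ * M + ε * (M + 1) - ε := by ring
    rw [h2, h1]
    linarith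
  have hSfin : {v : HeightOneSpectrum (𝓞 K) | v ∈ B ∨ (ℓ : 𝓞 K) ∈ v.asIdeal}.Finite :=
    hB.union (Pool.Agent.W352.ChAbs.over_le ℓ (Fact.out : ℓ.Prime)).1
  refine prod_zero (V ℓ) (hV ℓ) (fun i => W i ℓ) (fun i => hW i ℓ) (fun j i => (c j i : ℚ_[ℓ]))
    hθε ?_ g
  have hBd := (dens_fin (fun v : HeightOneSpectrum (𝓞 K) => v ∈ B ∨ (ℓ : 𝓞 K) ∈ v.asIdeal)
    hSfin).eventually (ge_mem_nhds hε0)
  refine (hfreq.and_eventually hBd).mono ?_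
  rintro N ⟨h1, h2⟩
  refine (dens_le (Q := fun v => (∀ j, a v ≠ ∑ i, c j i * b i v) ∨
    (v ∈ B ∨ (ℓ : 𝓞 K) ∈ v.asIdeal)) ?_ N).trans ((card_or _ _ N).trans (add_le_add h1 h2))
  rintro v ⟨g, hg, hne⟩
  by_cases hv : v ∈ B ∨ (ℓ : 𝓞 K) ∈ v.asIdeal
  · exact Or.inr hv
  · push Not at hv
    refine Or.inl fun j hj => hne j ?_
    rw [htr ℓ v hv.1 hv.2 g hg, hj, Rat.cast_sum]
    refine Finset.sum_congr rfl fun i _ => ?_
    rw [htrW i ℓ v hv.1 hv.2 g hg, Rat.cast_mul]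

include hV hW hB htr htrW in
/-- **The structure of the family**: independent of `ℓ`. -/
theorem struct (p : ℕ) [Fact p.Prime] (U : Subgroup (GK K)) (D : GK K → ι → ℚ) (ξ : GK K → ℚ)
    (u : ℕ) (hUo : IsOpen (U : Set (GK K))) (hD : ∀ g, ∀ x ∈ U, D (g * x) = D g)
    (hξ : ∀ g, ∀ x ∈ U, ξ (g * x) = ξ g)
    (hU : ∀ g, (V p g).trace = ∑ i, (D g i : ℚ_[p]) * (W i p g).trace +
      (ξ g : ℚ_[p]) * ch p (u : ℤ) g)
    (ℓ : ℕ) [Fact ℓ.Prime] (g : GK K) :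
    (V ℓ g).trace = ∑ i, (D g i : ℚ_[ℓ]) * (W i ℓ g).trace + (ξ g : ℚ_[ℓ]) * ch ℓ (u : ℤ) g := by
  classical
  have hc : ∀ {k : ℕ} (ρ : GK K →* Matrix (Fin k) (Fin k) ℚ_[ℓ]),
      Continuous ρ → Continuous fun g : GK K => (ρ g).trace := by
    intro k ρ hρ
    exact (Continuous.matrix_trace continuous_id).comp hρ
  have hloc : ∀ {Y : Type} (f : GK K → Y), (∀ g, ∀ x ∈ U, f (g * x) = f g) →
      IsLocallyConstant f := by
    intro Y f hf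
    rw [IsLocallyConstant.iff_exists_open]
    intro x
    refine ⟨(fun y => x⁻¹ * y) ⁻¹' (U : Set (GK K)),
      hUo.preimage (continuous_const.mul continuous_id), ?_, ?_⟩
    · rw [Set.mem_preimage, inv_mul_cancel]
      exact U.one_mem
    · intro y hy
      have h1 := hf x _ hy
      rwa [mul_inv_cancel_left] at h1
  have hchc : Continuous (ch (K := K) ℓ (u : ℤ)) := by
    have h1 : ∀ y : GK K, ch (K := K) ℓ (u : ℤ) y =
        Pool.Agent.R401.Sup3.cyc K ℓ ℚ_[ℓ] y⁻¹ ^ u := by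
      intro y
      rw [ch_apply, _root_.zpow_neg, zpow_natCast, c_inv, inv_pow]
    have h2 : (ch (K := K) ℓ (u : ℤ) : GK K → ℚ_[ℓ]) =
        fun y => Pool.Agent.R401.Sup3.cyc K ℓ ℚ_[ℓ] y⁻¹ ^ u := funext h1
    rw [h2]
    exact ((Pool.Agent.R401.Sup3.continuous_cyc K ℓ ℚ_[ℓ]).comp continuous_inv).pow u
  have hDc : ∀ i, Continuous fun g => ((D g i : ℚ) : ℚ_[ℓ]) := fun i =>
    (hloc (fun g => ((D g i : ℚ) : ℚ_[ℓ])) fun g x hx => by rw [hD g x hx]).continuous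
  have hξc : Continuous fun g => ((ξ g : ℚ) : ℚ_[ℓ]) :=
    (hloc (fun g => ((ξ g : ℚ) : ℚ_[ℓ])) fun g x hx => by rw [hξ g x hx]).continuous
  set C : Set (GK K) := {g | (V ℓ g).trace = ∑ i, (D g i : ℚ_[ℓ]) * (W i ℓ g).trace +
    (ξ g : ℚ_[ℓ]) * ch ℓ (u : ℤ) g} with hC
  have hCc : IsClosed C := isClosed_eq (hc _ (hV ℓ)) ((continuous_finsetSum _ fun i _ =>
    (hDc i).mul (hc _ (hW i ℓ))).add (hξc.mul hchc))
  have hSfin : {v : HeightOneSpectrum (𝓞 K) | v ∈ B ∨ (p : 𝓞 K) ∈ v.asIdeal ∨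
      (ℓ : 𝓞 K) ∈ v.asIdeal}.Finite :=
    hB.union ((Pool.Agent.W352.ChAbs.over_le p (Fact.out : p.Prime)).1.union
      (Pool.Agent.W352.ChAbs.over_le ℓ (Fact.out : ℓ.Prime)).1)
  have hchf : ∀ (ℓ : ℕ) [Fact ℓ.Prime] (v : HeightOneSpectrum (𝓞 K)) (γ : GK K),
      (ℓ : 𝓞 K) ∉ v.asIdeal → IsFrob v γ →
      ch (K := K) ℓ (u : ℤ) γ⁻¹ = (Ideal.absNorm v.asIdeal : ℚ_[ℓ]) ^ u := by
    intro ℓ _ v γ hv hγ
    rw [ch_apply, _root_.zpow_neg, zpow_natCast, c_inv, inv_pow, inv_inv,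
      Pool.Agent.R401.Sup3.cyc_frob ℓ ℚ_[ℓ] hv hγ]
  refine dense_frob C hCc hSfin (fun v hv γ hγ => ?_) g
  obtain ⟨hvB, hv'⟩ := not_or.1 hv
  obtain ⟨hv2, hvℓ⟩ := not_or.1 hv'
  have hj2 := hU γ⁻¹
  simp only [htr p v hvB hv2 γ hγ, htrW _ p v hvB hv2 γ hγ, hchf p v γ hv2 hγ] at hj2
  have hab : a v = ∑ i, D γ⁻¹ i * b i v + ξ γ⁻¹ * (Ideal.absNorm v.asIdeal : ℚ) ^ u := by
    exact_mod_cast hj2
  change (V ℓ γ⁻¹).trace = ∑ i, (D γ⁻¹ i : ℚ_[ℓ]) * (W i ℓ γ⁻¹).trace +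
    (ξ γ⁻¹ : ℚ_[ℓ]) * ch ℓ (u : ℤ) γ⁻¹
  simp only [htr ℓ v hvB hvℓ γ hγ, htrW _ ℓ v hvB hvℓ γ hγ, hchf ℓ v γ hvℓ hγ]
  exact_mod_cast hab

end glob

section int

variable
  (V : ∀ (ℓ : ℕ) [Fact ℓ.Prime], GK K →* Matrix (Fin n) (Fin n) ℚ_[ℓ])
  (W : ∀ (i : ι) (ℓ : ℕ) [Fact ℓ.Prime], GK K →* Matrix (Fin (m i)) (Fin (m i)) ℚ_[ℓ])
  (D : GK K → ι → ℚ)
  (U : Subgroup (GK K)) (hUn : U.Normal) (hUo : IsOpen (U : Set (GK K)))
  (hj : ∀ g, ∀ u ∈ U, D (g * u) = D g)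
  (hT : ∀ (ℓ : ℕ) [Fact ℓ.Prime] (g : GK K),
    (V ℓ g).trace = ∑ i, (D g i : ℚ_[ℓ]) * (W i ℓ g).trace)
  {P : Ideal (OO K)} (hP : P.IsMaximal) {q : ℕ}

include hj hT in
/-- the trace on the open subgroup, as a functional of the direct sum of the representations which
occur there -/
theorem trace_sub [DecidableEq ι] (ℓ : ℕ) [Fact ℓ.Prime] (x : GK K) (hx : x ∈ U) :
    (V ℓ x).trace =
      lamC (fun i : {i // D 1 i ≠ 0} => m i) (fun i => (D 1 i : ℚ_[ℓ]))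
        (dsum (fun i : {i // D 1 i ≠ 0} => W i ℓ) x) := by
  classical
  have h1 := hj 1 x hx
  rw [_root_.one_mul] at h1
  rw [hT, h1, dsum_apply, lamC_bm]
  have h2 : ∑ i, (D 1 i : ℚ_[ℓ]) * (W i ℓ x).trace =
      ∑ i ∈ Finset.univ.filter (fun i => D 1 i ≠ 0),
        (D 1 i : ℚ_[ℓ]) * (W i ℓ x).trace := by
    rw [Finset.sum_filter]
    refine Finset.sum_congr rfl fun i _ => ?_
    split_ifs with h
    · rfl
    · push Not at h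
      rw [h, Rat.cast_zero, zero_mul]
  rw [h2]
  exact Finset.sum_subtype _ (fun i => by simp) _

include hUn hUo hj hT hP in
/-- **Transfer of the weight bounds.** -/
theorem transfer_WB_virt (hq : 2 ≤ q) {w : ℤ} (ℓ : ℕ) [Fact ℓ.Prime]
    (hss : ∀ i, D 1 i ≠ 0 → SemiOn ⊤ (lin (W i ℓ)))
    (hWB : ∀ i, D 1 i ≠ 0 → WB (W i ℓ) P q w) : WB (V ℓ) P q w := by
  classical
  exact transfer_WB_lam (V ℓ) (dsum fun i : {i // D 1 i ≠ 0} => W i ℓ) U hUn hUo _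
    (trace_sub V W D U hj hT ℓ) hP hq (semiOn_dsum fun i => hss i i.2)
    (WB_dsum _ fun i => hWB i i.2)

include hUn hUo hj hT hP in
/-- **Transfer of the characteristic polynomials.** -/
theorem transfer_int_virt (hWi : ∀ i, IntChar (fun ℓ _ => W i ℓ) P q) : IntChar V P q := by
  classical
  intro a ha h hh
  obtain ⟨ℓ₀, hℓ₀, hℓ₀P⟩ := Pool.Agent.R401.Tr6.exists_prime_not_mem hP
  have : Fact ℓ₀.Prime := ⟨hℓ₀⟩
  have hf := fun i => hWi i a ha h hh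
  choose f hf using hf
  -- the traces of the powers
  have hhk : ∀ k, FrobAt (q ^ (a * k)) P (h ^ k)⁻¹ := by
    intro k
    rw [← inv_pow, pow_mul]
    exact frobAt_pow hh k
  set s : ι → ℕ → ℚ := fun i k =>
    tn (fun r => (((f i).map (Int.castRingHom ℚ)).coeff (revAt (m i) r))) k with hs
  have hsi : ∀ (i : ι) (ℓ : ℕ) [Fact ℓ.Prime], (ℓ : OO K) ∉ P → ∀ k,
      (W i ℓ (h ^ (k + 1))).trace = (s i k : ℚ_[ℓ]) := by
    intro i ℓ _ hℓP k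
    rw [map_pow, trace_int (hf i ℓ hℓP) k]
  set t : ℕ → ℚ := fun k => ∑ i, D (h ^ k) i * s i (k - 1) with ht
  have htr : ∀ (ℓ : ℕ) [Fact ℓ.Prime], (ℓ : OO K) ∉ P → ∀ k,
      ((V ℓ h) ^ (k + 1)).trace = (t (k + 1) : ℚ_[ℓ]) := by
    intro ℓ _ hℓP k
    rw [← map_pow, hT]
    simp only [ht, Nat.add_sub_cancel, Rat.cast_sum, Rat.cast_mul]
    exact Finset.sum_congr rfl fun i _ => by rw [hsi i ℓ hℓP k]
  have hcoef := rat_char (P := P) (fun ℓ _ => V ℓ h) t htr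
  -- integrality
  obtain ⟨g, hg, hg0⟩ : ∃ g : ℤ[X], g.Monic ∧ aeval (V ℓ₀ h) g = 0 := by
    have hfm : ∀ {r : ℕ} {B : Matrix (Fin r) (Fin r) ℚ_[ℓ₀]} {f : ℤ[X]},
        B.charpoly = f.map (Int.castRingHom ℚ_[ℓ₀]) → f.Monic := by
      intro r B f h1
      apply Polynomial.monic_of_injective (f := Int.castRingHom ℚ_[ℓ₀]) Int.cast_injective
      rw [← h1]
      exact Matrix.charpoly_monic _
    have hfin : Finite (GK K ⧸ U) := Subgroup.quotient_finite_of_isOpen _ hUo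
    have hfi : U.FiniteIndex := Subgroup.finiteIndex_of_finite_quotient
    have hM : 0 < U.index := Nat.pos_of_ne_zero hfi.index_ne_zero
    set M := U.index with hMdef
    have hMU : h ^ M ∈ U := Subgroup.pow_index_mem U h
    have hF := fun i => hWi i (a * M) (Nat.mul_pos ha hM) (h ^ M) (hhk M)
    choose F hF using hF
    obtain ⟨g', hg', hg0'⟩ := exists_monic (V ℓ₀)
      (dsum fun i : {i // D 1 i ≠ 0} => W i ℓ₀) U _ (trace_sub V W D U hj hT ℓ₀) hMU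
      (g := ∏ i : {i // D 1 i ≠ 0}, F i)
      (Polynomial.monic_prod_of_monic _ _ fun i _ => hfm (hF i ℓ₀ hℓ₀P))
      (aeval_prod _ _ fun i => hF i ℓ₀ hℓ₀P)
    refine ⟨g'.comp (X ^ M), hg'.comp (monic_X_pow M) ?_, ?_⟩
    · rw [natDegree_X_pow]
      exact hM.ne'
    · rw [Polynomial.aeval_comp, map_pow, aeval_X, ← map_pow]
      exact hg0'
  have hint : ∀ i, ∃ c : ℤ, (if i ≤ n then cf t (n - i) else 0 : ℚ) = c := by
    intro i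
    have h1 := coeff_charpoly_integral (V ℓ₀ h) g hg hg0 i
    rw [hcoef ℓ₀ hℓ₀P i] at h1
    have h4 : IsIntegral ℤ (if i ≤ n then cf t (n - i) else 0 : ℚ) := by
      have h5 : (((if i ≤ n then cf t (n - i) else 0 : ℚ)) : ℚ_[ℓ₀]) =
          algebraMap ℚ ℚ_[ℓ₀] (if i ≤ n then cf t (n - i) else 0) := by simp
      rw [h5] at h1
      exact (isIntegral_algebraMap_iff (algebraMap ℚ ℚ_[ℓ₀]).injective).1 h1
    obtain ⟨c, hc⟩ := IsIntegrallyClosed.isIntegral_iff.1 h4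
    exact ⟨c, hc.symm⟩
  choose c' hc' using hint
  refine ⟨∑ i ∈ Finset.range (n + 1), C (c' i) * X ^ i, ?_⟩
  intro ℓ _ hℓP
  refine Polynomial.ext fun i => ?_
  rw [hcoef ℓ hℓP i, coeff_map, finsetSum_coeff]
  simp only [coeff_C_mul, coeff_X_pow, mul_ite, mul_one, mul_zero]
  rw [Finset.sum_ite_eq, eq_intCast, hc']
  split_ifs with hk
  · norm_cast
  · rw [Finset.mem_range] at hk
    have h1 := hc' i
    rw [if_neg (by omega)] at h1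
    have h2 : c' i = 0 := by exact_mod_cast h1.symm
    rw [h2]
    norm_cast

end int

end Pool.Agent.D0H78.FM
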