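import Pool.Agent.D0H78.FM.Ext

/-!
# Differences with finitely many values at most places
-/

set_option autoImplicit false
set_option linter.unusedSectionVars false
set_option maxHeartbeats 1000000

namespace Pool.Agent.D0H78.FM

open NumberField Filter Topology Pool.Agent.W569.FM Pool.Agent.W401.Cheb Matrix Module
open Pool.Agent.R401.Tr5 Pool.Agent.R401.Tr9 Pool.Agent.R401.Tr4 Pool.Agent.R401.Tr10
open Pool.Agent.R401.Sup Pool.Agent.R401.Sup2 Pool.Agent.R401.Eng IsDedekindDomain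
open Pool.Agent.D0H32.EF

variable {K : Type} [Field K] [NumberField K] {κ ι : Type} [Fintype κ] [Fintype ι] {n : ℕ}
  {m : ι → ℕ}

theorem continuous_ch (ℓ : ℕ) [Fact ℓ.Prime] (u : ℕ) : Continuous (ch (K := K) ℓ (u : ℤ)) := by
  have h1 : ∀ y : GK K, ch (K := K) ℓ (u : ℤ) y =
      Pool.Agent.R401.Sup3.cyc K ℓ ℚ_[ℓ] y⁻¹ ^ u := by
    intro y
    rw [ch_apply, _root_.zpow_neg, zpow_natCast, c_inv, inv_pow]
  have h2 : (ch (K := K) ℓ (u : ℤ) : GK K → ℚ_[ℓ]) =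
      fun y => Pool.Agent.R401.Sup3.cyc K ℓ ℚ_[ℓ] y⁻¹ ^ u := funext h1
  rw [h2]
  exact ((Pool.Agent.R401.Sup3.continuous_cyc K ℓ ℚ_[ℓ]).comp continuous_inv).pow u

theorem ch_isFrob (ℓ : ℕ) [Fact ℓ.Prime] (u : ℕ) (v : HeightOneSpectrum (𝓞 K)) (γ : GK K)
    (hv : (ℓ : 𝓞 K) ∉ v.asIdeal) (hγ : IsFrob v γ) :
    ch (K := K) ℓ (u : ℤ) γ⁻¹ = (Ideal.absNorm v.asIdeal : ℚ_[ℓ]) ^ u := by
  rw [ch_apply, _root_.zpow_neg, zpow_natCast, c_inv, inv_pow, inv_inv,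
    Pool.Agent.R401.Sup3.cyc_frob ℓ ℚ_[ℓ] hv hγ]

/-- the coefficients, with the additional one -/
def cx (c : κ → ι → ℚ) (X : Finset ℚ) (k : κ × {ξ : ℚ // ξ ∈ X}) : Option ι → ℚ
  | none => k.2
  | some i => c k.1 i

/-- the traces, with the additional one -/
noncomputable def bx (b : ι → HeightOneSpectrum (𝓞 K) → ℚ) (u : ℕ) :
    Option ι → HeightOneSpectrum (𝓞 K) → ℚ
  | none => fun v => (Ideal.absNorm v.asIdeal : ℚ) ^ u
  | some i => b i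

section many

variable
  (V : ∀ (ℓ : ℕ) [Fact ℓ.Prime], GK K →* Matrix (Fin n) (Fin n) ℚ_[ℓ])
  (hV : ∀ (ℓ : ℕ) [Fact ℓ.Prime], Continuous (V ℓ))
  (W : ∀ (i : ι) (ℓ : ℕ) [Fact ℓ.Prime], GK K →* Matrix (Fin (m i)) (Fin (m i)) ℚ_[ℓ])
  (hW : ∀ (i : ι) (ℓ : ℕ) [Fact ℓ.Prime], Continuous (W i ℓ))
  (B : Set (HeightOneSpectrum (𝓞 K))) (hB : B.Finite) (a : HeightOneSpectrum (𝓞 K) → ℚ)
  (b : ι → HeightOneSpectrum (𝓞 K) → ℚ) (c : κ → ι → ℚ)
  (htr : ∀ (ℓ : ℕ) [Fact ℓ.Prime], ∀ v, v ∉ B → (ℓ : 𝓞 K) ∉ v.asIdeal → ∀ g, IsFrob v g →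
    (V ℓ g⁻¹).trace = (a v : ℚ_[ℓ]))
  (htrW : ∀ (i : ι) (ℓ : ℕ) [Fact ℓ.Prime], ∀ v, v ∉ B → (ℓ : 𝓞 K) ∉ v.asIdeal → ∀ g,
    IsFrob v g → (W i ℓ g⁻¹).trace = (b i v : ℚ_[ℓ]))

include hV hW hB htr htrW in
/-- **Finitely many values, at most places.** -/
theorem many_prime (w : ℕ) (S : Finset ℚ) {θ : ℝ}
    (hθ : θ * ((n : ℝ) ^ 2 + ∑ i, (m i : ℝ) ^ 2 + S.card) ^
      (Fintype.card κ * (2 * S.card + 1)) < 1)
    (hfreq : ∃ᶠ N : ℕ in atTop, dens (fun v : HeightOneSpectrum (𝓞 K) =>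
      ∀ j, a v ≠ ∑ i, c j i * b i v ∧ ∀ s ∈ S,
        (a v - ∑ i, c j i * b i v) ^ 2 ≠ s * (Ideal.absNorm v.asIdeal : ℚ) ^ w) N ≤ θ)
    (ℓ : ℕ) [Fact ℓ.Prime] :
    ∃ (u : ℕ) (U : Subgroup (GK K)) (j : GK K → κ) (ξ : GK K → ℚ),
      (w = 2 * u ∨ ∀ g, ξ g = 0) ∧ U.Normal ∧ IsOpen (U : Set (GK K)) ∧
      (∀ g, ∀ x ∈ U, j (g * x) = j g ∧ ξ (g * x) = ξ g) ∧
      ∀ g, (V ℓ g).trace = ∑ i, (c (j g) i : ℚ_[ℓ]) * (W i ℓ g).trace +
        (ξ g : ℚ_[ℓ]) * ch ℓ (u : ℤ) g := by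
  classical
  rcases S.eq_empty_or_nonempty with hS | hS
  · subst hS
    simp only [Finset.card_empty, Nat.cast_zero, add_zero, mul_zero, zero_add, mul_one] at hθ
    have hfreq' : ∃ᶠ N : ℕ in atTop,
        dens (fun v : HeightOneSpectrum (𝓞 K) => ∀ j, a v ≠ ∑ i, c j i * b i v) N ≤ θ := by
      refine hfreq.mono fun N hN => (dens_le (fun v hv j => ⟨hv j, fun s hs => ?_⟩) N).trans hN
      exact absurd hs (Finset.notMem_empty s)
    obtain ⟨U, j, hUn, hUo, hj, hU⟩ := exists_open (V ℓ) (hV ℓ)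
      (fun i => W i ℓ) (fun i => hW i ℓ) (fun j i => (c j i : ℚ_[ℓ]))
      (one_prime V hV W hW B hB a b c htr htrW hθ hfreq' ℓ)
    refine ⟨0, U, j, fun _ => 0, Or.inr fun _ => rfl, hUn, hUo,
      fun g x hx => ⟨hj g x hx, rfl⟩, fun g => ?_⟩
    rw [hU g, Rat.cast_zero, zero_mul, add_zero]
  · obtain ⟨u, X, Z, hu, hXc, hZ, hred⟩ := reduce a (fun j v => ∑ i, c j i * b i v) w S
    have hS1 : 1 ≤ S.card := Finset.card_pos.2 hS
    have hθ0 : 0 ≤ θ := by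
      obtain ⟨N, hN⟩ := hfreq.exists
      refine le_trans ?_ hN
      unfold dens
      positivity
    set M : ℝ := ((n : ℝ) ^ 2 + ∑ o, (mx m o : ℝ) ^ 2) ^
      Fintype.card (κ × {ξ : ℚ // ξ ∈ X}) with hM
    have hM0 : 0 ≤ M := by positivity
    have hθM : θ * M < 1 := by
      refine lt_of_le_of_lt (mul_le_mul_of_nonneg_left ?_ hθ0) hθ
      have hS1' : (1 : ℝ) ≤ S.card := by exact_mod_cast hS1
      have hsum : ∑ o, (mx m o : ℝ) ^ 2 = 1 + ∑ i, (m i : ℝ) ^ 2 := by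
        rw [Fintype.sum_option]
        simp [mx]
      have h0 : (0 : ℝ) ≤ ∑ i, (m i : ℝ) ^ 2 := Finset.sum_nonneg fun i _ => by positivity
      have h1 : (n : ℝ) ^ 2 + ∑ o, (mx m o : ℝ) ^ 2 ≤
          (n : ℝ) ^ 2 + ∑ i, (m i : ℝ) ^ 2 + S.card := by
        rw [hsum]
        linarith
      have h2 : (1 : ℝ) ≤ (n : ℝ) ^ 2 + ∑ i, (m i : ℝ) ^ 2 + S.card := by
        have : (0 : ℝ) ≤ (n : ℝ) ^ 2 := by positivity
        linarith
      have h3 : Fintype.card (κ × {ξ : ℚ // ξ ∈ X}) ≤ Fintype.card κ * (2 * S.card + 1) := by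
        rw [Fintype.card_prod, Fintype.card_coe]
        exact Nat.mul_le_mul_left _ hXc
      refine (pow_le_pow_left₀ (by positivity) h1 _).trans (pow_le_pow_right₀ h2 h3)
    set ε : ℝ := (1 - θ * M) / (2 * (M + 1)) with hε
    have hε0 : 0 < ε := div_pos (by linarith) (by positivity)
    have hθε : (θ + ε) * M < 1 := by
      have h1 : ε * (M + 1) = (1 - θ * M) / 2 := by
        rw [hε]
        field_simp
      have h2 : (θ + ε) * M = θ * M + ε * (M + 1) - ε := by ring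
      rw [h2, h1]
      linarith
    have hWc : ∀ (o : Option ι) (ℓ : ℕ) [Fact ℓ.Prime], Continuous (Wx W u o ℓ) := by
      intro o ℓ _
      cases o with
      | none =>
        have h1 : (Wx W u none ℓ : GK K → _) =
            fun g => ch (K := K) ℓ (u : ℤ) g • (1 : Matrix (Fin 1) (Fin 1) ℚ_[ℓ]) :=
          funext fun g => oneRep_apply _ g
        rw [h1]
        exact (continuous_ch ℓ u).smul continuous_const
      | some i => exact hW i ℓ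
    have htrx : ∀ (o : Option ι) (ℓ : ℕ) [Fact ℓ.Prime], ∀ v, v ∉ B → (ℓ : 𝓞 K) ∉ v.asIdeal →
        ∀ g, IsFrob v g → (Wx W u o ℓ g⁻¹).trace = (bx b u o v : ℚ_[ℓ]) := by
      intro o ℓ _ v hv hℓ g hg
      cases o with
      | none =>
        change (oneRep (ch (K := K) ℓ (u : ℤ)) g⁻¹).trace = _
        rw [trace_oneRep, ch_isFrob ℓ u v g hℓ hg]
        change _ = (((Ideal.absNorm v.asIdeal : ℚ) ^ u : ℚ) : ℚ_[ℓ])
        push_cast
        rfl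
      | some i => exact htrW i ℓ v hv hℓ g hg
    have hsumx : ∀ (k : κ × {ξ : ℚ // ξ ∈ X}) v, ∑ o, cx c X k o * bx b u o v =
        ∑ i, c k.1 i * b i v + k.2 * (Ideal.absNorm v.asIdeal : ℚ) ^ u := by
      intro k v
      rw [Fintype.sum_option, add_comm]
      rfl
    have hZd := hZ.eventually (ge_mem_nhds hε0)
    have hfreq' : ∃ᶠ N : ℕ in atTop, dens (fun v : HeightOneSpectrum (𝓞 K) =>
        ∀ k, a v ≠ ∑ o, cx c X k o * bx b u o v) N ≤ θ + ε := by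
      refine (hfreq.and_eventually hZd).mono ?_
      rintro N ⟨h1, h2⟩
      refine (dens_le (Q := fun v => (∀ j, a v ≠ ∑ i, c j i * b i v ∧ ∀ s ∈ S,
        (a v - ∑ i, c j i * b i v) ^ 2 ≠ s * (Ideal.absNorm v.asIdeal : ℚ) ^ w) ∨ Z v) ?_ N).trans
          ((card_or _ _ N).trans (add_le_add h1 h2))
      intro v hv
      by_cases hdiv : ∃ j, a v = ∑ i, c j i * b i v ∨ ∃ s ∈ S,
          (a v - ∑ i, c j i * b i v) ^ 2 = s * (Ideal.absNorm v.asIdeal : ℚ) ^ w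
      · rcases hred v hdiv with ⟨j, ξ, hξ, h4⟩ | h4
        · exact absurd (h4.trans (hsumx (j, ⟨ξ, hξ⟩) v).symm) (hv (j, ⟨ξ, hξ⟩))
        · exact Or.inr h4
      · left
        intro j
        exact ⟨fun h5 => hdiv ⟨j, Or.inl h5⟩, fun s hs h5 => hdiv ⟨j, Or.inr ⟨s, hs, h5⟩⟩⟩
    obtain ⟨U, k, hUn, hUo, hk, hU⟩ := exists_open (V ℓ) (hV ℓ)
      (fun o => Wx W u o ℓ) (fun o => hWc o ℓ) (fun k o => (cx c X k o : ℚ_[ℓ]))
      (one_prime V hV (Wx W u) hWc B hB a (bx b u) (cx c X) htr htrx hθε hfreq' ℓ)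
    refine ⟨u, U, fun g => (k g).1, fun g => (k g).2, ?_, hUn, hUo,
      fun g x hx => ⟨congrArg Prod.fst (hk g x hx),
        congrArg (fun y : κ × {ξ : ℚ // ξ ∈ X} => (y.2 : ℚ)) (hk g x hx)⟩, fun g => ?_⟩
    · rcases hu with hu | hu
      · exact Or.inl hu
      · have h1 : ∀ y ∈ X, y = 0 := by
          intro y hy
          rw [hu] at hy
          exact Finset.mem_singleton.1 hy
        exact Or.inr fun g => h1 _ (k g).2.2
    · rw [hU g, Fintype.sum_option, add_comm]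
      congr 1
      change (((k g).2 : ℚ) : ℚ_[ℓ]) * (oneRep (ch (K := K) ℓ (u : ℤ)) g).trace = _
      rw [trace_oneRep]

end many

end Pool.Agent.D0H78.FM
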