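import Pool.Agent.R401.Tr7
import Pool.Agent.R401.Tr9

/-!
# A product of trace functions which is zero at most places is zero
-/

set_option autoImplicit false
set_option maxHeartbeats 1000000

namespace Pool.Agent.D0H78.FM

open NumberField Filter Topology IsDedekindDomain Pool.Agent.W401.Cheb Pool.Agent.R401.Eng
open Pool.Agent.R401.Sup2 Pool.Agent.R401.Tr1 Module Matrix

variable {K : Type} [Field K] [NumberField K]

/-- functions of finite rank which are zero at most places are zero -/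
theorem all_zero {F : Type} [NormedField F] {M : Type} [AddCommGroup M] [Module F M]
    [Module.Finite F M] (T : GK K → F) (hT : Continuous T)
    (hcyc : ∀ x y, T (x * y) = T (y * x)) (R : GK K → M) (L : GK K → M →ₗ[F] F)
    (hTR : ∀ g x, T (g * x) = L g (R x)) {θ : ℝ} (hθ : θ * finrank F M < 1)
    (hfreq : ∃ᶠ N : ℕ in atTop,
      dens (fun v : HeightOneSpectrum (𝓞 K) => ∃ g, IsFrob v g ∧ T g ≠ 0) N ≤ θ) (g₀ : GK K) :
    T g₀ = 0 := by
  by_contra hg₀
  obtain ⟨m, h, hm, hsep⟩ := exists_sep (F := F) R L T hTR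
  have hmθ : m * θ < 1 := by
    rcases le_or_gt 0 θ with h0 | h0
    · have h1 : (m : ℝ) ≤ finrank F M := by exact_mod_cast hm
      calc m * θ ≤ finrank F M * θ := mul_le_mul_of_nonneg_right h1 h0
        _ = θ * finrank F M := mul_comm _ _
        _ < 1 := hθ
    · have h1 : m * θ ≤ 0 := mul_nonpos_of_nonneg_of_nonpos (Nat.cast_nonneg m) h0.le
      linarith
  have h1 := engine {g | T g = 0} (isClosed_singleton.preimage hT) (by
      intro g hg x
      have hg' : T g = 0 := hg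
      change T (x * g * x⁻¹) = 0
      rw [hcyc, inv_mul_cancel_left, hg']) hfreq h ⊤ isOpen_univ ∅ (by
    intro g hg
    exfalso
    have h2 := hsep g g 0 (by
      intro j
      have h3 : T (g * h j) = 0 := hg j
      rw [h3, mul_zero]) (g⁻¹ * g₀)
    rw [mul_inv_cancel_left, zero_mul] at h2
    exact hg₀ h2)
  rw [Subgroup.index_top, Finset.card_empty] at h1
  push_cast at h1
  linarith

/-- the Frobenius elements are dense -/
theorem dense_frob (C : Set (GK K)) (hC : IsClosed C) {S : Set (HeightOneSpectrum (𝓞 K))}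
    (hS : S.Finite) (h : ∀ v, v ∉ S → ∀ γ, IsFrob v γ → γ⁻¹ ∈ C) (g : GK K) : g ∈ C := by
  by_contra hg
  have h1 : (fun u => u * g) ⁻¹' Cᶜ ∈ 𝓝 (1 : GK K) := by
    apply (hC.isOpen_compl.preimage (continuous_id.mul continuous_const)).mem_nhds
    simpa using hg
  obtain ⟨s, hs1, hs2, hs3⟩ := mem_nhds_iff.1 h1
  obtain ⟨U, hU⟩ := ProfiniteGrp.exist_openNormalSubgroup_sub_open_nhds_of_one hs2 hs3
  have hUn : (U : Subgroup (GK K)).Normal := U.isNormal'
  have hUo : IsOpen (((U : Subgroup (GK K)) : Subgroup (GK K)) : Set (GK K)) := U.isOpen'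
  obtain ⟨v, hv, γ, hγ, hyγ⟩ := Pool.Agent.R401.Tr2.exists_frob (U : Subgroup (GK K)) hUo g⁻¹ hS
  rw [inv_inv] at hyγ
  have h2 := hs1 (hU ((U : Subgroup (GK K)).inv_mem hyγ))
  have h3 : (g * γ)⁻¹ * g = γ⁻¹ := by group
  rw [Set.mem_preimage, h3] at h2
  exact h2 (h v hv γ hγ)

section fam

variable {κ ι : Type} [Fintype κ] [Fintype ι] {F : Type} [NormedField F] {n : ℕ} {m : ι → ℕ}

/-- the indices of the entries -/
abbrev Ix (n : ℕ) (m : ι → ℕ) : Type := (Fin n × Fin n) ⊕ (Σ i, Fin (m i) × Fin (m i))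

/-- **Zero at most places, so zero.** -/
theorem prod_zero (V : GK K →* Matrix (Fin n) (Fin n) F) (hV : Continuous V)
    (W : ∀ i, GK K →* Matrix (Fin (m i)) (Fin (m i)) F) (hW : ∀ i, Continuous (W i))
    (c : κ → ι → F) {θ : ℝ}
    (hθ : θ * ((n : ℝ) ^ 2 + ∑ i, (m i : ℝ) ^ 2) ^ Fintype.card κ < 1)
    (hfreq : ∃ᶠ N : ℕ in atTop, dens (fun v : HeightOneSpectrum (𝓞 K) => ∃ g, IsFrob v g ∧
      ∀ j, (V g⁻¹).trace ≠ ∑ i, c j i * (W i g⁻¹).trace) N ≤ θ) (g : GK K) :
    ∃ j, (V g).trace = ∑ i, c j i * (W i g).trace := by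
  classical
  set T : GK K → F := fun g => ∏ j, ((V g⁻¹).trace - ∑ i, c j i * (W i g⁻¹).trace) with hTdef
  have hc : ∀ {k : ℕ} (ρ : GK K →* Matrix (Fin k) (Fin k) F), Continuous ρ →
      Continuous fun g : GK K => (ρ g⁻¹).trace := by
    intro k ρ hρ
    exact (Continuous.matrix_trace continuous_id).comp (hρ.comp continuous_inv)
  have hT : Continuous T := continuous_finsetProd _ fun j _ =>
    (hc V hV).sub (continuous_finsetSum _ fun i _ => continuous_const.mul (hc (W i) (hW i)))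
  have hcy : ∀ {k : ℕ} (ρ : GK K →* Matrix (Fin k) (Fin k) F) (x y : GK K),
      (ρ (x * y)⁻¹).trace = (ρ (y * x)⁻¹).trace := by
    intro k ρ x y
    rw [_root_.mul_inv_rev, _root_.mul_inv_rev, map_mul, map_mul, Matrix.trace_mul_comm]
  have hcyc : ∀ x y, T (x * y) = T (y * x) := by
    intro x y
    simp only [hTdef]
    refine Finset.prod_congr rfl fun j _ => ?_
    rw [hcy V]
    congr 1
    exact Finset.sum_congr rfl fun i _ => by rw [hcy (W i)]
  let β : GK K → Ix n m → F := fun x => Sum.elim (fun p => V x⁻¹ p.1 p.2)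
    (fun p => W p.1 x⁻¹ p.2.1 p.2.2)
  let α : κ → GK K → Ix n m → F := fun j g => Sum.elim (fun p => V g⁻¹ p.2 p.1)
    (fun p => -(c j p.1 * W p.1 g⁻¹ p.2.2 p.2.1))
  have htr : ∀ {k : ℕ} (ρ : GK K →* Matrix (Fin k) (Fin k) F) (g x : GK K),
      (ρ (g * x)⁻¹).trace = ∑ p : Fin k × Fin k, ρ g⁻¹ p.2 p.1 * ρ x⁻¹ p.1 p.2 := by
    intro k ρ g x
    rw [_root_.mul_inv_rev, map_mul, Matrix.trace, Fintype.sum_prod_type]
    refine Finset.sum_congr rfl fun i _ => ?_
    rw [Matrix.diag_apply, Matrix.mul_apply]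
    exact Finset.sum_congr rfl fun j _ => mul_comm _ _
  have hsum : ∀ j g x, (V (g * x)⁻¹).trace - ∑ i, c j i * (W i (g * x)⁻¹).trace =
      ∑ p : Ix n m, α j g p * β x p := by
    intro j g x
    rw [htr V, Fintype.sum_sum_type, Fintype.sum_sigma, sub_eq_add_neg, ← Finset.sum_neg_distrib]
    congr 1
    refine Finset.sum_congr rfl fun i _ => ?_
    rw [htr (W i), Finset.mul_sum, ← Finset.sum_neg_distrib]
    refine Finset.sum_congr rfl fun p _ => ?_
    simp only [α, β, Sum.elim_inr]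
    ring
  let R : GK K → ((κ → Ix n m) → F) := fun x f => ∏ j, β x (f j)
  let L : GK K → ((κ → Ix n m) → F) →ₗ[F] F := fun g =>
    ∑ f : (κ → Ix n m), (∏ j, α j g (f j)) • LinearMap.proj f
  have hTR : ∀ g x, T (g * x) = L g (R x) := by
    intro g x
    simp only [hTdef, hsum, R, L, LinearMap.sum_apply, LinearMap.smul_apply, LinearMap.proj_apply,
      smul_eq_mul]
    rw [Finset.prod_univ_sum, Fintype.piFinset_univ]
    exact Finset.sum_congr rfl fun f _ => Finset.prod_mul_distrib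
  have hrank : (finrank F ((κ → Ix n m) → F) : ℝ) =
      ((n : ℝ) ^ 2 + ∑ i, (m i : ℝ) ^ 2) ^ Fintype.card κ := by
    rw [Module.finrank_fintype_fun_eq_card, Fintype.card_pi, Finset.prod_const, Finset.card_univ]
    push_cast
    congr 1
    simp only [Fintype.card_sum, Fintype.card_prod, Fintype.card_fin, Fintype.card_sigma]
    push_cast
    rw [pow_two]
    congr 1
    exact Finset.sum_congr rfl fun i _ => by rw [pow_two]
  have h0 := all_zero T hT hcyc R L hTR (θ := θ) (by rw [hrank]; exact hθ) (by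
    refine hfreq.mono ?_
    intro N hN
    refine le_trans (dens_le ?_ N) hN
    rintro v ⟨g, hg, hgT⟩
    refine ⟨g, hg, fun j hj => hgT ?_⟩
    simp only [hTdef]
    apply Finset.prod_eq_zero (Finset.mem_univ j)
    rw [hj, sub_self]) g⁻¹
  simp only [hTdef] at h0
  obtain ⟨j, -, hj⟩ := Finset.prod_eq_zero_iff.1 h0
  rw [inv_inv] at hj
  exact ⟨j, sub_eq_zero.1 hj⟩

end fam

end Pool.Agent.D0H78.FM
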