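import Pool.Agent.D0H78.FM.Span
import Pool.Agent.D0H78.FM.Zero

/-!
# The zeros of a function of finite rank: positive density implies a coset
-/

set_option autoImplicit false
set_option linter.unusedSectionVars false
set_option maxHeartbeats 1000000

namespace Pool.Agent.D0H78.FM

open NumberField Filter Topology IsDedekindDomain Pool.Agent.W401.Cheb Pool.Agent.R401.Eng
open Pool.Agent.R401.Sup2 Pool.Agent.R401.Tr1 Module Matrix

section count

variable {G : Type} [Group G]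

/-- the proportion of the cosets of `U` which meet `Y` -/
noncomputable def vol (Y : Set G) (U : Subgroup G) : ℝ :=
  (((QuotientGroup.mk : G → G ⧸ U) '' Y).ncard : ℝ) / Nat.card (G ⧸ U)

theorem vol_eq (E : Set G) {U' U : Subgroup G} (h : U' ≤ U) [hfin : Finite (G ⧸ U')]
    (hE : ∀ g ∈ E, ∀ u ∈ U, g * u ∈ E) : vol E U' = vol E U := by
  classical
  let e := Subgroup.quotientEquivProdOfLE h
  have he : ∀ g : G, (e (g : G ⧸ U')).1 = (g : G ⧸ U) := fun g => rfl
  have h1 : e '' ((QuotientGroup.mk : G → G ⧸ U') '' E) =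
      ((QuotientGroup.mk : G → G ⧸ U) '' E) ×ˢ Set.univ := by
    ext ⟨c, t⟩
    constructor
    · rintro ⟨_, ⟨g, hg, rfl⟩, hgc⟩
      refine ⟨⟨g, hg, ?_⟩, trivial⟩
      rw [← he, hgc]
    · rintro ⟨⟨g, hg, hgc⟩, -⟩
      obtain ⟨g', hg'⟩ := QuotientGroup.mk_surjective (e.symm (c, t))
      refine ⟨(g' : G ⧸ U'), ⟨g', ?_, rfl⟩, ?_⟩
      · have h2 : (g' : G ⧸ U) = (g : G ⧸ U) := by
          rw [← he, hg', Equiv.apply_symm_apply]
          exact hgc.symm
        have h3 := QuotientGroup.eq.1 h2.symm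
        have h4 := hE g hg _ h3
        rwa [mul_inv_cancel_left] at h4
      · rw [hg', Equiv.apply_symm_apply]
  have hfin2 : Finite ((G ⧸ U) × (U ⧸ U'.subgroupOf U)) := Finite.of_equiv _ e
  have hfin3 : Finite (U ⧸ U'.subgroupOf U) := Finite.prod_right (G ⧸ U)
  have h2 : ((QuotientGroup.mk : G → G ⧸ U') '' E).ncard =
      ((QuotientGroup.mk : G → G ⧸ U) '' E).ncard * Nat.card (U ⧸ U'.subgroupOf U) := by
    rw [← Set.ncard_image_of_injective _ e.injective, h1, Set.ncard_prod, Set.ncard_univ]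
  have h3 : Nat.card (G ⧸ U') = Nat.card (G ⧸ U) * Nat.card (U ⧸ U'.subgroupOf U) := by
    rw [Nat.card_congr e, Nat.card_prod]
  have h4 : (0 : ℝ) < Nat.card (U ⧸ U'.subgroupOf U) := by exact_mod_cast Nat.card_pos
  unfold vol
  rw [h2, h3]
  push_cast
  rw [mul_div_mul_right _ _ h4.ne']

variable [TopologicalSpace G] [IsTopologicalGroup G] [CompactSpace G] [TotallyDisconnectedSpace G]

/-- the proportion decreases -/
theorem vol_step {Y : Set G} (hY : IsClosed Y) (U : Subgroup G) (hUn : U.Normal)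
    (hUo : IsOpen (U : Set G)) {r : ℕ} (hr : 0 < r) (h : Fin r → G) (hh : ∀ k, h k ∈ U)
    (hsep : ∀ g, (∃ u ∈ U, g * u ∈ Y) → ∃ k, g * h k ∉ Y) :
    ∃ U' : Subgroup G, U' ≤ U ∧ U'.Normal ∧ IsOpen (U' : Set G) ∧
      vol Y U' ≤ (1 - 1 / r) * vol Y U := by
  classical
  -- the saturated sets
  set E : Set G := {g | ∃ u ∈ U, g * u ∈ Y} with hE
  let T : OpenNormalSubgroup G → Set G := fun U₁ =>
    {g | g ∈ E ∧ ∀ k, ∃ u ∈ (U₁ : Subgroup G), g * h k * u ∈ Y}
  have hclopen : ∀ (U₁ : Subgroup G), IsOpen (U₁ : Set G) → ∀ X : Set G,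
      (∀ x ∈ X, ∀ u ∈ U₁, x * u ∈ X) → IsOpen X := by
    intro U₁ hU₁ X hX
    have h1 : X = ⋃ x ∈ X, (fun u => x * u) '' (U₁ : Set G) := by
      ext y
      constructor
      · intro hy
        exact Set.mem_biUnion hy ⟨1, U₁.one_mem, mul_one y⟩
      · intro hy
        rw [Set.mem_iUnion₂] at hy
        obtain ⟨x, hx, u, hu, rfl⟩ := hy
        exact hX x hx u hu
    rw [h1]
    refine isOpen_biUnion fun x _ => ?_
    exact (Homeomorph.mulLeft x).isOpenMap _ hU₁
  have hEc : IsClosed E := by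
    rw [← isOpen_compl_iff]
    apply hclopen U hUo
    rintro x hx u hu ⟨u', hu', hxu⟩
    exact hx ⟨u * u', U.mul_mem hu hu', by rwa [← mul_assoc]⟩
  have hEU : ∀ g ∈ E, ∀ u ∈ U, g * u ∈ E := by
    rintro g ⟨u', hu', hgu⟩ u hu
    refine ⟨u⁻¹ * u', U.mul_mem (U.inv_mem hu) hu', ?_⟩
    rwa [mul_assoc, mul_inv_cancel_left]
  have hYE : Y ⊆ E := fun y hy => ⟨1, U.one_mem, by rwa [mul_one]⟩
  have hTclosed : ∀ U₁, IsClosed (T U₁) := by
    intro U₁
    refine IsClosed.inter hEc ?_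
    rw [← isOpen_compl_iff]
    apply hclopen (U₁ : Subgroup G) U₁.isOpen'
    intro x hx u hu hxu
    apply hx
    intro k
    obtain ⟨u', hu', hg⟩ := hxu k
    refine ⟨(h k)⁻¹ * u * h k * u', ?_, ?_⟩
    · apply (U₁ : Subgroup G).mul_mem _ hu'
      have := U₁.isNormal'.conj_mem u hu (h k)⁻¹
      rwa [inv_inv] at this
    · have : x * h k * ((h k)⁻¹ * u * h k * u') = x * u * h k * u' := by group
      rw [this]
      exact hg
  have hTmono : ∀ U₁ U₂ : OpenNormalSubgroup G, (U₁ : Subgroup G) ≤ U₂ → T U₁ ⊆ T U₂ := by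
    intro U₁ U₂ hU g hg
    refine ⟨hg.1, fun k => ?_⟩
    obtain ⟨u, hu, hgu⟩ := hg.2 k
    exact ⟨u, hU hu, hgu⟩
  have hTdir : Directed (fun x1 x2 => x1 ⊇ x2) T := by
    intro U₁ U₂
    exact ⟨U₁ ⊓ U₂, hTmono _ _ inf_le_left, hTmono _ _ inf_le_right⟩
  have hne : Nonempty (OpenNormalSubgroup G) :=
    ⟨{ toSubgroup := ⊤, isOpen' := isOpen_univ, isNormal' := inferInstance }⟩
  have hTO : ∃ U₁, T U₁ ⊆ ∅ := by
    refine exists_subset_nhds_of_isCompact' hTdir (fun U => (hTclosed U).isCompact) hTclosed ?_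
    intro g hg
    exfalso
    have hgE : g ∈ E := (Set.mem_iInter.1 hg hne.some).1
    obtain ⟨k, hk⟩ := hsep g hgE
    obtain ⟨U₁, hU₁n, hU₁o, hU₁⟩ := exists_coset hY.isOpen_compl (g := g * h k) hk
    obtain ⟨u, hu, hgu⟩ := (Set.mem_iInter.1 hg
      { toSubgroup := U₁, isOpen' := hU₁o, isNormal' := hU₁n }).2 k
    exact hU₁ u hu hgu
  obtain ⟨U₁, hU₁⟩ := hTO
  set U' : Subgroup G := U ⊓ (U₁ : Subgroup G) with hU'
  have hU₁n : (U₁ : Subgroup G).Normal := U₁.isNormal'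
  have hU'n : U'.Normal := inferInstance
  have hU'o : IsOpen (U' : Set G) := by
    rw [hU', Subgroup.coe_inf]
    exact hUo.inter U₁.isOpen'
  refine ⟨U', inf_le_left, hU'n, hU'o, ?_⟩
  have hfin : Finite (G ⧸ U') := Subgroup.quotient_finite_of_isOpen _ hU'o
  -- the count
  have hEeq : vol Y U = vol E U := by
    unfold vol
    congr 3
    ext c
    constructor
    · rintro ⟨y, hy, rfl⟩
      exact ⟨y, hYE hy, rfl⟩
    · rintro ⟨g, ⟨u, hu, hgu⟩, rfl⟩
      refine ⟨g * u, hgu, ?_⟩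
      exact QuotientGroup.mk_mul_of_mem g hu
  rw [hEeq, ← vol_eq E (inf_le_left : U' ≤ U) hEU]
  set Eb : Set (G ⧸ U') := (QuotientGroup.mk : G → G ⧸ U') '' E with hEb
  set Yb : Set (G ⧸ U') := (QuotientGroup.mk : G → G ⧸ U') '' Y with hYb
  have hYEb : Yb ⊆ Eb := Set.image_mono hYE
  have hkey : ∀ q ∈ Eb, ∃ k, q * ((h k : G) : G ⧸ U') ∈ Eb \ Yb := by
    rintro _ ⟨g, hg, rfl⟩
    have h1 : g ∉ T U₁ := fun hgT => hU₁ hgT
    have h2 : ∃ k, ∀ u ∈ (U₁ : Subgroup G), g * h k * u ∉ Y := by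
      by_contra hcon
      push Not at hcon
      exact h1 ⟨hg, hcon⟩
    obtain ⟨k, hk⟩ := h2
    refine ⟨k, ⟨g * h k, hEU g hg _ (hh k), rfl⟩, ?_⟩
    rintro ⟨y, hy, hyk⟩
    have h3 : ((g * h k : G) : G ⧸ U') = (y : G ⧸ U') := hyk.symm
    have h4 := QuotientGroup.eq.1 h3
    have h5 := hk _ h4.2
    rw [mul_inv_cancel_left] at h5
    exact h5 hy
  have hrn : Nonempty (Fin r) := ⟨⟨0, hr⟩⟩
  choose! k hk using hkey
  have h6 : Eb.ncard ≤ ((Eb \ Yb) ×ˢ (Set.univ : Set (Fin r))).ncard := by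
    refine Set.ncard_le_ncard_of_injOn (fun q => (q * ((h (k q) : G) : G ⧸ U'), k q)) ?_ ?_
      (Set.toFinite _)
    · intro q hq
      exact ⟨hk q hq, trivial⟩
    · intro q _ q' _ hqq
      obtain ⟨h7, h8⟩ := Prod.mk.inj hqq
      rw [h8] at h7
      exact mul_right_cancel h7
  rw [Set.ncard_prod, Set.ncard_univ, Nat.card_eq_fintype_card, Fintype.card_fin] at h6
  have h7 : (Eb \ Yb).ncard + Yb.ncard = Eb.ncard := Set.ncard_sdiff_add_ncard_of_subset hYEb
  have hr' : (0 : ℝ) < r := by exact_mod_cast hr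
  have h8 : (Yb.ncard : ℝ) ≤ (1 - 1 / r) * Eb.ncard := by
    have h9 : (Eb.ncard : ℝ) ≤ ((Eb \ Yb).ncard : ℝ) * r := by exact_mod_cast h6
    have h10 : ((Eb \ Yb).ncard : ℝ) + Yb.ncard = Eb.ncard := by exact_mod_cast h7
    have h11 : (Eb.ncard : ℝ) / r ≤ (Eb \ Yb).ncard := by
      rw [div_le_iff₀ hr']
      exact h9
    have h12 : (1 - 1 / (r : ℝ)) * Eb.ncard = Eb.ncard - Eb.ncard / r := by ring
    rw [h12]
    linarith
  have h9 : (0 : ℝ) < Nat.card (G ⧸ U') := by exact_mod_cast Nat.card_pos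
  unfold vol
  rw [← mul_div_assoc]
  exact div_le_div_of_nonneg_right h8 h9.le

/-- the proportion tends to zero -/
theorem vol_small {Y : Set G} (hY : IsClosed Y) (G₀ : Subgroup G) (hG₀n : G₀.Normal)
    (hG₀o : IsOpen (G₀ : Set G)) {r : ℕ} (hr : 0 < r)
    (hsep : ∀ U : Subgroup G, U ≤ G₀ → U.Normal → IsOpen (U : Set G) → ∃ h : Fin r → G,
      (∀ k, h k ∈ U) ∧ ∀ g, (∃ u ∈ U, g * u ∈ Y) → ∃ k, g * h k ∉ Y) {ε : ℝ} (hε : 0 < ε) :
    ∃ U : Subgroup G, U ≤ G₀ ∧ U.Normal ∧ IsOpen (U : Set G) ∧ vol Y U ≤ ε := by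
  have hr' : (1 : ℝ) ≤ r := by exact_mod_cast hr
  have h0 : (0 : ℝ) ≤ 1 - 1 / r := by
    have : 1 / (r : ℝ) ≤ 1 := by
      rw [div_le_one (by linarith)]
      exact hr'
    linarith
  have h1 : (1 - 1 / (r : ℝ)) < 1 := by
    have : (0 : ℝ) < 1 / r := by positivity
    linarith
  have hN : ∀ N : ℕ, ∃ U : Subgroup G, U ≤ G₀ ∧ U.Normal ∧ IsOpen (U : Set G) ∧
      vol Y U ≤ (1 - 1 / r) ^ N := by
    intro N
    induction N with
    | zero =>
      refine ⟨G₀, le_rfl, hG₀n, hG₀o, ?_⟩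
      have hfin : Finite (G ⧸ G₀) := Subgroup.quotient_finite_of_isOpen _ hG₀o
      have h9 : (0 : ℝ) < Nat.card (G ⧸ G₀) := by exact_mod_cast Nat.card_pos
      unfold vol
      rw [pow_zero, div_le_one h9]
      have h10 := Set.ncard_le_card ((QuotientGroup.mk : G → G ⧸ G₀) '' Y)
      exact_mod_cast h10
    | succ N ih =>
      obtain ⟨U, hU, hUn, hUo, hvol⟩ := ih
      obtain ⟨h, hh, hs⟩ := hsep U hU hUn hUo
      obtain ⟨U', hU', hU'n, hU'o, hv⟩ := vol_step hY U hUn hUo hr h hh hs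
      refine ⟨U', hU'.trans hU, hU'n, hU'o, hv.trans ?_⟩
      rw [pow_succ']
      exact mul_le_mul_of_nonneg_left hvol h0
  obtain ⟨N, hN'⟩ := exists_pow_lt_of_lt_one hε h1
  obtain ⟨U, hU, hUn, hUo, hvol⟩ := hN N
  exact ⟨U, hU, hUn, hUo, hvol.trans hN'.le⟩

end count

section main

variable {K : Type} [Field K] [NumberField K] {κ : Type} [Fintype κ]

/-- **Positive density**: one of the functions is zero on a coset of an open normal subgroup. -/
theorem coset_pos {F : Type} [NormedField F] {M : Type} [AddCommGroup M] [Module F M]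
    [Module.Finite F M] (T : κ → GK K → F) (hT : ∀ j, Continuous (T j))
    (hcyc : ∀ j x y, T j (x * y) = T j (y * x)) (R : GK K → M) (L : κ → GK K → M →ₗ[F] F)
    (hTR : ∀ j g x, T j (g * x) = L j g (R x)) (G₀ : Subgroup (GK K)) (hG₀n : G₀.Normal)
    (hG₀o : IsOpen (G₀ : Set (GK K)))
    {θ : ℝ} (hθ : θ * G₀.index < 1)
    (hfreq : ∃ᶠ N : ℕ in atTop, dens (fun v : HeightOneSpectrum (𝓞 K) => ∃ g, IsFrob v g ∧
      ∀ j, T j g ≠ 0) N ≤ θ) (x : GK K) :
    ∃ (j : κ) (g : GK K), x⁻¹ * g ∈ G₀ ∧ ∃ U : Subgroup (GK K), U ≤ G₀ ∧ U.Normal ∧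
      IsOpen (U : Set (GK K)) ∧ ∀ u ∈ U, T j (g * u) = 0 := by
  classical
  by_contra hcon
  -- the product
  set P : GK K → F := fun g => ∏ j, T j g with hP
  have hPc : Continuous P := continuous_finsetProd _ fun j _ => hT j
  have hP0 : ∀ g, P g = 0 ↔ ∃ j, T j g = 0 := by
    intro g
    simp only [hP, Finset.prod_eq_zero_iff, Finset.mem_univ, true_and]
  let b := Module.finBasis F M
  let R' : GK K → ((κ → Fin (finrank F M)) → F) := fun x f => ∏ j, b.repr (R x) (f j)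
  let L' : GK K → ((κ → Fin (finrank F M)) → F) →ₗ[F] F := fun g =>
    ∑ f : (κ → Fin (finrank F M)), (∏ j, L j g (b (f j))) • LinearMap.proj f
  have hTR' : ∀ g x, P (g * x) = L' g (R' x) := by
    intro g x
    have h1 : ∀ j, T j (g * x) = ∑ p, L j g (b p) * b.repr (R x) p := by
      intro j
      rw [hTR]
      conv_lhs => rw [← b.sum_repr (R x)]
      rw [map_sum]
      refine Finset.sum_congr rfl fun p _ => ?_
      rw [map_smul, smul_eq_mul, mul_comm]
    simp only [hP, h1, R', L', LinearMap.sum_apply, LinearMap.smul_apply, LinearMap.proj_apply,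
      smul_eq_mul]
    rw [Finset.prod_univ_sum, Fintype.piFinset_univ]
    exact Finset.sum_congr rfl fun f _ => Finset.prod_mul_distrib
  set r : ℕ := finrank F ((κ → Fin (finrank F M)) → F) + 1 with hr
  set Y : Set (GK K) := {g | x⁻¹ * g ∈ G₀ ∧ P g = 0} with hY
  have hYc : IsClosed Y := by
    refine IsClosed.inter ?_ (isClosed_singleton.preimage hPc)
    exact (G₀.isClosed_of_isOpen hG₀o).preimage (continuous_const.mul continuous_id)
  have hsep : ∀ U : Subgroup (GK K), U ≤ G₀ → U.Normal → IsOpen (U : Set (GK K)) →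
      ∃ h : Fin r → GK K, (∀ k, h k ∈ U) ∧ ∀ g, (∃ u ∈ U, g * u ∈ Y) → ∃ k, g * h k ∉ Y := by
    intro U hUG hUn hUo
    obtain ⟨f, hf1, hf2, -⟩ := Submodule.exists_fun_fin_finrank_span_eq F (R' '' (U : Set (GK K)))
    have hf1' : ∀ i, ∃ u ∈ U, R' u = f i := fun i => hf1 i
    choose h' hh' hhf using hf1'
    have hle : finrank F (Submodule.span F (R' '' (U : Set (GK K)))) ≤
        finrank F ((κ → Fin (finrank F M)) → F) := Submodule.finrank_le _
    refine ⟨fun k => if hk : (k : ℕ) < finrank F (Submodule.span F (R' '' (U : Set (GK K)))) then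
      h' ⟨k, hk⟩ else 1, ?_, ?_⟩
    · intro k
      dsimp only
      split_ifs with hk
      · exact hh' _
      · exact U.one_mem
    · rintro g ⟨u, hu, hgu⟩
      have hxg : x⁻¹ * g ∈ G₀ := by
        have h1 := G₀.mul_mem hgu.1 (G₀.inv_mem (hUG hu))
        have h2 : x⁻¹ * (g * u) * u⁻¹ = x⁻¹ * g := by group
        rwa [h2] at h1
      by_contra hall
      push Not at hall
      have hall' : ∀ i, P (g * h' i) = 0 := by
        intro i
        have h1 := hall ⟨i, by omega⟩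
        simp only [i.2, dif_pos, Fin.eta] at h1
        exact h1.2
      -- zero on the coset of `U`
      have hz : ∀ u ∈ U, P (g * u) = 0 := by
        intro u hu
        rw [hTR']
        have h2 : Submodule.span F (R' '' (U : Set (GK K))) ≤ LinearMap.ker (L' g) := by
          rw [← hf2]
          apply Submodule.span_le.2
          rintro _ ⟨i, rfl⟩
          have h3 := hall' i
          rw [hTR', hhf] at h3
          exact h3
        exact h2 (Submodule.subset_span ⟨u, hu, rfl⟩)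
      obtain ⟨j, g', hg', U', hU'n, hU'o, hU'le, hU'z⟩ := exists_small (fun j => {g | T j g = 0})
        (fun j => isClosed_singleton.preimage (hT j)) U g Finset.univ g U
        (by rw [inv_mul_cancel]; exact U.one_mem) hUn hUo le_rfl
        (fun u hu => by
          obtain ⟨j, hj⟩ := (hP0 _).1 (hz u hu)
          exact ⟨j, Finset.mem_univ j, hj⟩)
      refine hcon ⟨j, g', ?_, U', hU'le.trans hUG, hU'n, hU'o, hU'z⟩
      have h2 : x⁻¹ * g' = (x⁻¹ * g) * (g⁻¹ * g') := by group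
      rw [h2]
      exact G₀.mul_mem hxg (hUG hg')
  -- the density
  have hfi : Finite (GK K ⧸ G₀) := Subgroup.quotient_finite_of_isOpen _ hG₀o
  have hind : (0 : ℝ) < G₀.index := by
    have : G₀.FiniteIndex := Subgroup.finiteIndex_of_finite_quotient
    exact_mod_cast Nat.pos_of_ne_zero this.index_ne_zero
  have hmain : ∀ ε : ℝ, 0 < ε → 1 / (G₀.index : ℝ) - ε ≤ θ := by
    intro ε hε
    obtain ⟨U, hUG, hUn, hUo, hvol⟩ := vol_small hYc G₀ hG₀n hG₀o (by omega) hsep hε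
    have hfin : Finite (GK K ⧸ U) := Subgroup.quotient_finite_of_isOpen _ hUo
    set C : Set (GK K) := {σ | ∀ u ∈ U, P (σ * u) ≠ 0} with hC
    have hPcyc : ∀ σ τ, P (τ * σ * τ⁻¹) = P σ := by
      intro σ τ
      simp only [hP]
      refine Finset.prod_congr rfl fun j _ => ?_
      rw [hcyc, inv_mul_cancel_left]
    have hC1 : ∀ σ ∈ C, ∀ τ : GK K, τ * σ * τ⁻¹ ∈ C := by
      intro σ hσ τ u hu hG
      refine hσ (τ⁻¹ * u * τ) ?_ ?_
      · have := hUn.conj_mem u hu τ⁻¹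
        rwa [inv_inv] at this
      · rw [← hPcyc _ τ]
        have h2 : τ * (σ * (τ⁻¹ * u * τ)) * τ⁻¹ = τ * σ * τ⁻¹ * u := by group
        rwa [h2]
    have hC2 : ∀ σ ∈ C, ∀ u ∈ U, σ * u ∈ C := by
      intro σ hσ u hu u' hu'
      rw [mul_assoc]
      exact hσ _ (U.mul_mem hu hu')
    have hcheb := Pool.Agent.Y142.chebK K U hUo C hC1 hC2
    have hle : vol C U ≤ θ := by
      refine le_of_tendsto_of_frequently hcheb ?_
      refine hfreq.mono fun N hN => le_trans (dens_le ?_ N) hN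
      rintro v ⟨σ, hσ, hv⟩
      refine ⟨σ, hv, fun j hj => ?_⟩
      have h1 := hσ 1 U.one_mem
      rw [mul_one] at h1
      exact h1 ((hP0 σ).2 ⟨j, hj⟩)
    set X : Set (GK K) := {g | x⁻¹ * g ∈ G₀} with hX
    have hXU : vol X U = 1 / G₀.index := by
      rw [vol_eq X hUG (fun g hg u hu => by
        change x⁻¹ * (g * u) ∈ G₀
        rw [← mul_assoc]
        exact G₀.mul_mem hg hu)]
      have h1 : (QuotientGroup.mk : GK K → GK K ⧸ G₀) '' X = {(x : GK K ⧸ G₀)} := by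
        ext c
        constructor
        · rintro ⟨g, hg, rfl⟩
          exact (QuotientGroup.eq.2 hg).symm
        · rintro rfl
          refine ⟨x, ?_, rfl⟩
          change x⁻¹ * x ∈ G₀
          rw [inv_mul_cancel]
          exact G₀.one_mem
      unfold vol
      rw [h1, Set.ncard_singleton, Nat.cast_one]
      rfl
    have hsub : vol X U ≤ vol C U + vol Y U := by
      unfold vol
      rw [← add_div]
      apply div_le_div_of_nonneg_right _ (Nat.cast_nonneg _)
      have h1 : (QuotientGroup.mk : GK K → GK K ⧸ U) '' X ⊆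
          (QuotientGroup.mk : GK K → GK K ⧸ U) '' C ∪ (QuotientGroup.mk : GK K → GK K ⧸ U) '' Y := by
        rintro _ ⟨g, hg, rfl⟩
        by_cases hgC : g ∈ C
        · exact Or.inl ⟨g, hgC, rfl⟩
        · have h2 : ∃ u ∈ U, P (g * u) = 0 := by
            by_contra hcon
            push Not at hcon
            exact hgC hcon
          obtain ⟨u, hu, hgu⟩ := h2
          refine Or.inr ⟨g * u, ⟨?_, hgu⟩, QuotientGroup.mk_mul_of_mem g hu⟩
          rw [← mul_assoc]
          exact G₀.mul_mem hg (hUG hu)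
      have h2 := (Set.ncard_le_ncard h1 (Set.toFinite _)).trans (Set.ncard_union_le _ _)
      exact_mod_cast h2
    rw [hXU] at hsub
    linarith
  have hfinal : 1 / (G₀.index : ℝ) ≤ θ := by
    refine le_of_forall_pos_le_add fun ε hε => ?_
    have := hmain ε hε
    linarith
  rw [div_le_iff₀ hind] at hfinal
  linarith

/-- **Positive density, connected case.** -/
theorem coset_zero {F : Type} [NormedField F] {M : Type} [AddCommGroup M] [Module F M]
    [Module.Finite F M] (T : κ → GK K → F) (hT : ∀ j, Continuous (T j))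
    (hcyc : ∀ j x y, T j (x * y) = T j (y * x)) (R : GK K → M) (L : κ → GK K → M →ₗ[F] F)
    (hTR : ∀ j g x, T j (g * x) = L j g (R x)) (G₀ : Subgroup (GK K)) (hG₀n : G₀.Normal)
    (hG₀o : IsOpen (G₀ : Set (GK K)))
    (hconn : ∀ U : Subgroup (GK K), U ≤ G₀ → U.Normal → IsOpen (U : Set (GK K)) →
      ∀ g ∈ G₀, R g ∈ Submodule.span F (R '' (U : Set (GK K))))
    {θ : ℝ} (hθ : θ * G₀.index < 1)
    (hfreq : ∃ᶠ N : ℕ in atTop, dens (fun v : HeightOneSpectrum (𝓞 K) => ∃ g, IsFrob v g ∧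
      ∀ j, T j g ≠ 0) N ≤ θ) (x : GK K) :
    ∃ j, ∀ y, x⁻¹ * y ∈ G₀ → T j y = 0 := by
  obtain ⟨j, g', hg', U', hU', hU'n, hU'o, hU'z⟩ :=
    coset_pos T hT hcyc R L hTR G₀ hG₀n hG₀o hθ hfreq x
  refine ⟨j, fun y hy => ?_⟩
  have h1 : g'⁻¹ * y ∈ G₀ := by
    have h2 : g'⁻¹ * y = (x⁻¹ * g')⁻¹ * (x⁻¹ * y) := by group
    rw [h2]
    exact G₀.mul_mem (G₀.inv_mem hg') hy
  have h2 : Submodule.span F (R '' (U' : Set (GK K))) ≤ LinearMap.ker (L j g') := by
    apply Submodule.span_le.2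
    rintro _ ⟨v, hv, rfl⟩
    have h3 : T j (g' * v) = 0 := hU'z v hv
    rw [hTR] at h3
    exact h3
  have h3 := h2 (hconn U' hU' hU'n hU'o _ h1)
  have h4 : T j (g' * (g'⁻¹ * y)) = 0 := by
    rw [hTR]
    exact h3
  rwa [mul_inv_cancel_left] at h4

end main

end Pool.Agent.D0H78.FM
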