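import Pool.Agent.D0H32.EF.Glob

/-!
# Transfer of eigenvalues on invariants, when the trace is a combination of matrix coefficients
-/

set_option autoImplicit false
set_option linter.unusedSectionVars false
set_option maxHeartbeats 1000000

namespace Pool.Agent.D0H78.FM

open Module Matrix Polynomial Pool.Agent.D0H32.EF

/-- **Transfer of eigenvalues on invariants.** -/
theorem transfer_lam {F : Type} [Field F] [CharZero F] (e : F →+* ℂ) {G : Type} [Group G] {n m : ℕ}
    (V : G →* Matrix (Fin n) (Fin n) F) (W : G →* Matrix (Fin m) (Fin m) F) (U : Subgroup G)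
    (hsoc : soc U (lin W) = ⊤) (lam : Matrix (Fin m) (Fin m) F →ₗ[F] F)
    (htr : ∀ u ∈ U, (V u).trace = lam (W u)) {h : G} {M : ℕ} (hM : 0 < M)
    (hh : h ^ M ∈ U) (J : Set G) (hJU : ∀ τ ∈ J, τ ∈ U) (hJh : ∀ τ ∈ J, h⁻¹ * τ * h ∈ J)
    {x : Fin n → ℂ} (hx : x ≠ 0) (hxJ : ∀ τ ∈ J, (V τ).map e *ᵥ x = x) {β : ℂ}
    (hxβ : (V h).map e *ᵥ x = β • x) :
    ∃ (α : ℂ) (y : Fin m → ℂ), α ^ M = β ^ M ∧ y ≠ 0 ∧
      (∀ τ ∈ J, (W τ).map e *ᵥ y = y) ∧ (W h).map e *ᵥ y = α • y := by
  classical
  -- the invariants of `W`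
  let E : Submodule F (Fin m → F) :=
    { carrier := {y | ∀ τ ∈ J, W τ *ᵥ y = y}
      add_mem' := by
        intro a b ha hb τ hτ
        rw [Matrix.mulVec_add, ha τ hτ, hb τ hτ]
      zero_mem' := by
        intro τ _
        rw [Matrix.mulVec_zero]
      smul_mem' := by
        intro a b hb τ hτ
        rw [Matrix.mulVec_smul, hb τ hτ] }
  have hEmem : ∀ y, y ∈ E ↔ ∀ τ ∈ J, W τ *ᵥ y = y := fun y => Iff.rfl
  have hEh : E ≤ E.comap (Matrix.toLin' (W h)) := by
    intro y hy
    rw [Submodule.mem_comap, Matrix.toLin'_apply, hEmem]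
    intro τ hτ
    have h1 := (hEmem y).1 hy _ (hJh τ hτ)
    have h2 : W τ * W h = W h * W (h⁻¹ * τ * h) := by
      rw [← map_mul, ← map_mul]
      congr 1
      group
    rw [Matrix.mulVec_mulVec, h2, ← Matrix.mulVec_mulVec, h1]
  set f : E →ₗ[F] E := (Matrix.toLin' (W h)).restrict hEh with hf
  have hfpow : ∀ (k : ℕ) (y : E), (((f ^ k) y : E) : Fin m → F) = W (h ^ k) *ᵥ (y : Fin m → F) := by
    intro k
    induction k with
    | zero => intro y; rw [pow_zero, pow_zero, map_one, Matrix.one_mulVec]; rfl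
    | succ k ih =>
      intro y
      rw [pow_succ, pow_succ, map_mul, ← Matrix.mulVec_mulVec, Module.End.mul_apply, ih]
      rfl
  set p : F[X] := (f ^ M).charpoly with hp
  let s : U := ⟨h ^ M, hh⟩
  set t : MonoidAlgebra F U := aeval (MonoidAlgebra.of F U s) p with ht
  have hgt : gm U W t = aeval (W (h ^ M)) p := by
    rw [ht, ← Polynomial.aeval_algHom_apply, gm_of]
  have hgtV : gm U V t = aeval (V (h ^ M)) p := by
    rw [ht, ← Polynomial.aeval_algHom_apply, gm_of]
  have haev : ∀ (q : F[X]) (y : E), (aeval (W (h ^ M)) q) *ᵥ (y : Fin m → F) =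
      ((aeval (f ^ M) q y : E) : Fin m → F) := by
    intro q
    induction q using Polynomial.induction_on' with
    | add q q' hq hq' =>
      intro y
      rw [map_add, Matrix.add_mulVec, hq, hq', map_add]
      rfl
    | monomial k a =>
      intro y
      rw [aeval_monomial, aeval_monomial, Algebra.algebraMap_eq_smul_one,
        Algebra.algebraMap_eq_smul_one, smul_mul_assoc, one_mul, smul_mul_assoc, one_mul,
        Matrix.smul_mulVec, ← map_pow, ← pow_mul, ← pow_mul, ← hfpow]
      rfl
  obtain ⟨l, hl, hl0⟩ := semi hsoc {τ : U | (τ : G) ∈ J} t (by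
    intro y hy
    have hyE : y ∈ E := by
      rw [hEmem]
      intro τ hτ
      have h1 := hy ⟨τ, hJU τ hτ⟩ hτ
      rwa [lin_apply] at h1
    rw [ga_lin, Matrix.toLin'_apply, hgt]
    have h1 := haev p ⟨y, hyE⟩
    rw [hp, LinearMap.aeval_self_charpoly] at h1
    exact h1)
  have hl0' : gm U W (t - l) = 0 := by
    rw [ga_lin] at hl0
    exact (LinearEquiv.map_eq_zero_iff Matrix.toLin').1 hl0
  have htra : ∀ a : MonoidAlgebra F U, (gm U V a).trace = lam (gm U W a) := by
    intro a
    have h1 : (Matrix.traceLinearMap (Fin n) F F).comp (gm U V).toLinearMap =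
        lam.comp (gm U W).toLinearMap := by
      apply MonoidAlgebra.lhom_ext'
      intro u
      apply LinearMap.ext_ring
      have h2 := gm_of (F := F) U V u
      have h3 := gm_of (F := F) U W u
      rw [MonoidAlgebra.of_apply] at h2 h3
      have h5 := htr u u.2
      simp only [LinearMap.comp_apply, MonoidAlgebra.lsingle_apply, AlgHom.toLinearMap_apply,
        Matrix.traceLinearMap_apply]
      rw [h2, h3]
      exact h5
    exact LinearMap.congr_fun h1 a
  set z : MonoidAlgebra F U := t - l with hz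
  have hznil : IsNilpotent (gm U V z) := by
    have h2 := Pool.Agent.R401.Burn.isNilpotent_of_trace_pow (k := F) (V := Fin n → F)
      (fun m h1 _ => Nat.cast_ne_zero.2 h1.ne') (Matrix.toLin' (gm U V z)) (by
        intro r
        rw [← Matrix.toLin'_pow, Matrix.trace_toLin'_eq, ← map_pow, htra, map_pow, hz,
          hl0', zero_pow (Nat.succ_ne_zero r), map_zero])
    obtain ⟨k, hk⟩ := h2
    refine ⟨k, ?_⟩
    rw [← Matrix.toLin'_pow] at hk
    exact (LinearEquiv.map_eq_zero_iff Matrix.toLin').1 hk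
  -- the action on the eigenvector
  let me : Matrix (Fin n) (Fin n) F →+* Matrix (Fin n) (Fin n) ℂ := e.mapMatrix
  have hme : ∀ A, me A = A.map e := fun A => rfl
  have hsx : (V (h ^ M)).map e *ᵥ x = β ^ M • x := by
    rw [map_pow, ← hme, map_pow, hme]
    exact pow_mulVec hxβ M
  have htx : (gm U V t).map e *ᵥ x = ((p.map e).eval (β ^ M)) • x := by
    rw [hgtV]
    have h1 : (aeval (V (h ^ M)) p).map e = aeval ((V (h ^ M)).map e) (p.map e) := by
      rw [← hme, ← hme, aeval_def, aeval_def, Polynomial.eval₂_map, Polynomial.hom_eval₂]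
      congr 1
      ext a i j
      simp only [RingHom.comp_apply, hme, Matrix.map_apply, Matrix.algebraMap_matrix_apply]
      split_ifs
      · simp
      · simp
    rw [h1]
    exact aeval_mulVec hsx _
  have hlx : (gm U V l).map e *ᵥ x = 0 := by
    have h1 : ∀ a ∈ Submodule.span (MonoidAlgebra F U)
        {a | ∃ τ ∈ {τ : U | (τ : G) ∈ J}, a = MonoidAlgebra.of F U τ - 1},
        (gm U V a).map e *ᵥ x = 0 := by
      intro a ha
      induction ha using Submodule.span_induction with
      | mem a ha =>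
        obtain ⟨τ, hτ, rfl⟩ := ha
        rw [map_sub, gm_of, map_one, ← hme, map_sub, map_one, hme, Matrix.sub_mulVec,
          Matrix.one_mulVec, hxJ _ hτ, sub_self]
      | zero => rw [map_zero, ← hme, map_zero, Matrix.zero_mulVec]
      | add a b _ _ ha hb =>
        rw [map_add, ← hme, map_add, hme, hme, Matrix.add_mulVec, ha, hb, add_zero]
      | smul a b _ hb =>
        rw [smul_eq_mul, map_mul, ← hme, map_mul, hme, hme, ← Matrix.mulVec_mulVec, hb,
          Matrix.mulVec_zero]
    exact h1 l hl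
  have hzx : (gm U V z).map e *ᵥ x = ((p.map e).eval (β ^ M)) • x := by
    have h5 : (gm U V (t - l)).map e = (gm U V t).map e - (gm U V l).map e := by
      rw [map_sub]
      exact map_sub me _ _
    rw [hz, h5, Matrix.sub_mulVec, htx, hlx, sub_zero]
  have hzn : IsNilpotent ((gm U V z).map e) := by
    rw [← hme]
    exact hznil.map me
  have h1 := nilp_eig hzn hx hzx
  -- the eigenvector of `W`
  let b := Module.finBasis F E
  set A := LinearMap.toMatrix b b f with hA
  have h2 : p.map e = ((A.map e) ^ M).charpoly := by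
    rw [hp, ← LinearMap.charpoly_toMatrix (f ^ M) b, ← LinearMap.toMatrix_pow, ← Matrix.charpoly_map]
    congr 1
    exact map_pow e.mapMatrix A M
  have h3 : β ^ M ∈ spectrum ℂ ((A.map e) ^ M) := by
    rw [Matrix.mem_spectrum_iff_isRoot_charpoly, ← h2]
    exact h1
  rw [spectrum.map_pow_of_pos _ hM] at h3
  obtain ⟨α, hα, hαβ⟩ := h3
  obtain ⟨y, hy, hyα, hyB⟩ := lift_eig e b (mul_colMat b hEh) hα
  refine ⟨α, y, hαβ, hy, ?_, hyα⟩
  intro τ hτ
  exact hyB _ fun y' hy' => (hEmem y').1 hy' τ hτ

end Pool.Agent.D0H78.FM
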